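import Mathlib

/-! Traces of `2 × 2` matrices of finite order over a ring with residue field `k`: they are determined
by their reduction. -/

set_option autoImplicit false

noncomputable section

namespace Pool.Agent.H70B

variable {A k : Type} [CommRing A] [Field k] (f : A →+* k) (hf : ∀ x, f x ≠ 0 → IsUnit x)

include hf in
lemma eq_one_of_pow {y : A} (h1 : f y = 1) {r : ℕ} (hr : y ^ r = 1) (hrk : (r : k) ≠ 0) :
    y = 1 := by
  have h2 := geom_sum_mul y r
  rw [hr, sub_self] at h2
  have h3 : IsUnit (∑ i ∈ Finset.range r, y ^ i) := by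
    refine hf _ ?_
    rw [map_sum]
    simp only [map_pow, h1, one_pow, Finset.sum_const, Finset.card_range, nsmul_eq_mul, mul_one]
    exact hrk
  exact sub_eq_zero.1 ((h3.mul_right_eq_zero).1 h2)

include hf in
lemma mat_eq_one_of_pow {n : ℕ} {y : Matrix (Fin n) (Fin n) A} (h1 : f.mapMatrix y = 1) {r : ℕ}
    (hr : y ^ r = 1) (hrk : (r : k) ≠ 0) : y = 1 := by
  have h2 := geom_sum_mul y r
  rw [hr, sub_self] at h2
  have h3 : IsUnit (∑ i ∈ Finset.range r, y ^ i) := by
    rw [Matrix.isUnit_iff_isUnit_det]
    refine hf _ ?_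
    rw [RingHom.map_det, map_sum]
    simp only [map_pow, h1, one_pow, Finset.sum_const, Finset.card_range]
    rw [← Nat.cast_smul_eq_nsmul k, Matrix.det_smul, Matrix.det_one, mul_one]
    exact pow_ne_zero _ hrk
  exact sub_eq_zero.1 ((h3.mul_right_eq_zero).1 h2)

lemma ch2 {R : Type} [CommRing R] (x : Matrix (Fin 2) (Fin 2) R) :
    x * x = x.trace • x - x.det • (1 : Matrix (Fin 2) (Fin 2) R) := by
  ext i j
  fin_cases i <;> fin_cases j <;>
    simp [Matrix.mul_apply, Fin.sum_univ_succ, Matrix.trace, Matrix.det_fin_two] <;> ring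

lemma det_comb {R : Type} [CommRing R] (x : Matrix (Fin 2) (Fin 2) R) (u v : R) :
    (u • x - v • (1 : Matrix (Fin 2) (Fin 2) R)).det =
      u ^ 2 * x.det - u * v * x.trace + v ^ 2 := by
  simp [Matrix.det_fin_two, Matrix.trace, Fin.sum_univ_succ]
  ring

include hf in
/-- Cancellation of a combination with invertible determinant. -/
lemma cancel {x : Matrix (Fin 2) (Fin 2) A} {t u v : A}
    (h : t • (u • x - v • (1 : Matrix (Fin 2) (Fin 2) A)) = 0)
    (hd : f (u ^ 2 * x.det - u * v * x.trace + v ^ 2) ≠ 0) : t = 0 := by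
  have h1 : IsUnit (u • x - v • (1 : Matrix (Fin 2) (Fin 2) A)) := by
    rw [Matrix.isUnit_iff_isUnit_det, det_comb]
    exact hf _ hd
  obtain ⟨w, hw⟩ := h1
  rw [← hw] at h
  have h2 : t • (1 : Matrix (Fin 2) (Fin 2) A) = 0 := by
    have := congrArg (fun M => M * (↑w⁻¹ : Matrix (Fin 2) (Fin 2) A)) h
    simpa only [smul_mul_assoc, Units.mul_inv, zero_mul] using this
  have h3 := congrFun (congrFun h2 0) 0
  simpa using h3

/-- The type of the pair (trace, determinant). -/
def Typ {R : Type} [CommRing R] (a w : R) : Prop :=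
  a = 0 ∨ a ^ 2 = w ∨ (∃ z, a = 2 * z ∧ z ^ 2 = w) ∨ ∃ b, b ^ 2 - 3 * b + 1 = 0 ∧ a ^ 2 = b * w

include hf in
/-- The trace and the determinant of a matrix of finite order are determined by their reductions. -/
theorem trace_eq {x : Matrix (Fin 2) (Fin 2) A} {N m : ℕ} (hx : x ^ N = 1) (hN : (N : k) ≠ 0)
    {a w : A} (hw : w ^ m = 1) (hm : (m : k) ≠ 0) (h30 : (30 : k) ≠ 0) (hT : Typ a w)
    (ht : f x.trace = f a) (hd : f x.det = f w) : x.trace = a ∧ x.det = w := by
  have h2 : (2 : k) ≠ 0 := fun h => h30 (by rw [show (30 : k) = 2 * 15 by norm_num, h, zero_mul])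
  have h3 : (3 : k) ≠ 0 := fun h => h30 (by rw [show (30 : k) = 3 * 10 by norm_num, h, zero_mul])
  have h5 : (5 : k) ≠ 0 := fun h => h30 (by rw [show (30 : k) = 5 * 6 by norm_num, h, zero_mul])
  have hm0 : m ≠ 0 := by
    rintro rfl
    simp at hm
  obtain ⟨m', rfl⟩ : ∃ m', m = m' + 1 := ⟨m - 1, by omega⟩
  have hww : w * w ^ m' = 1 := by rw [← pow_succ', hw]
  have hNm : ((2 * (m' + 1) * N : ℕ) : k) ≠ 0 := by
    push_cast
    push_cast at hm
    exact mul_ne_zero (mul_ne_zero h2 hm) hN
  -- the determinant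
  have hdet : x.det = w := by
    have h1 : x.det * w ^ m' = 1 := by
      refine eq_one_of_pow f hf (r := 2 * (m' + 1) * N) ?_ ?_ hNm
      · rw [map_mul, hd, ← map_mul, hww, map_one]
      · rw [mul_pow, ← Matrix.det_pow]
        have e1 : x ^ (2 * (m' + 1) * N) = 1 := by rw [mul_comm, pow_mul, hx, one_pow]
        have e2 : (w ^ m') ^ (2 * (m' + 1) * N) = 1 := by
          rw [← pow_mul, show m' * (2 * (m' + 1) * N) = (m' + 1) * (m' * 2 * N) by ring, pow_mul, hw,
            one_pow]
        rw [e1, e2, Matrix.det_one, one_mul]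
    calc x.det = x.det * (w * w ^ m') := by rw [hww, mul_one]
      _ = x.det * w ^ m' * w := by ring
      _ = w := by rw [h1, one_mul]
  refine ⟨?_, hdet⟩
  have hwk : f w ≠ 0 := by
    intro h
    have := congrArg f hww
    rw [map_mul, h, zero_mul, map_one] at this
    exact zero_ne_one this
  have hCH := ch2 x
  rw [hdet] at hCH
  have hxu : IsUnit x := by
    refine IsUnit.of_mul_eq_one (x ^ (N - 1)) ?_
    have hN0 : N ≠ 0 := by
      rintro rfl
      simp at hN
    rw [← pow_succ', Nat.sub_add_cancel (Nat.one_le_iff_ne_zero.2 hN0), hx]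
  -- general statement: if the power `x ^ o` reduces to `c` with `c` of finite order then `x ^ o = c`
  have hpow : ∀ (o : ℕ) (c c' : A), c * c' = 1 → c ^ (2 * (m' + 1)) = 1 →
      f.mapMatrix (x ^ o) = f.mapMatrix (c • 1) → x ^ o = c • 1 := by
    intro o c c' hc hc2 hred
    have hc' : c' ^ (2 * (m' + 1)) = 1 := by
      have := congrArg (fun y => y ^ (2 * (m' + 1))) hc
      simpa only [mul_pow, hc2, one_mul, one_pow] using this
    have h1 : c' • x ^ o = 1 := by
      refine mat_eq_one_of_pow f hf (r := 2 * (m' + 1) * N) ?_ ?_ hNm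
      · have e : f.mapMatrix (c' • x ^ o) = f c' • f.mapMatrix (x ^ o) := by
          ext i j
          simp
        rw [e, hred]
        ext i j
        have hcc : f c' * f c = 1 := by rw [← map_mul, mul_comm, hc, map_one]
        by_cases hij : i = j
        · subst hij
          simp [hcc]
        · simp [hij]
      · rw [smul_pow, pow_mul c', hc', one_pow, one_smul, ← pow_mul, show
          o * (2 * (m' + 1) * N) = N * (o * (2 * (m' + 1))) by ring, pow_mul, hx, one_pow]
    calc x ^ o = (c * c') • x ^ o := by rw [hc, one_smul]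
      _ = c • (c' • x ^ o) := by rw [mul_smul]
      _ = c • 1 := by rw [h1]
  -- the Cayley-Hamilton relation for the reduction
  have hCHk : f.mapMatrix x * f.mapMatrix x = f a • f.mapMatrix x - f w • 1 := by
    rw [← map_mul, hCH]
    ext i j
    rw [← ht]
    by_cases hij : i = j
    · subst hij
      simp
    · simp [hij]
  rcases hT with h | h | ⟨z, h, hz⟩ | ⟨b, hb, h⟩
  · -- `a = 0`
    have e1 : x ^ 2 = (-w) • (1 : Matrix (Fin 2) (Fin 2) A) := by
      refine hpow 2 (-w) (-w ^ m') (by linear_combination hww) ?_ ?_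
      · rw [pow_mul, neg_sq, ← pow_mul, mul_comm 2, pow_mul, hw, one_pow]
      · rw [pow_two, map_mul, hCHk, h, map_zero, zero_smul, zero_sub]
        ext i j
        by_cases hij : i = j
        · subst hij
          simp
        · simp [hij]
    have e2 : x.trace • x = 0 := by
      have : x.trace • x = x * x + w • (1 : Matrix (Fin 2) (Fin 2) A) := by rw [hCH]; abel
      rw [this, ← pow_two, e1, neg_smul, neg_add_cancel]
    obtain ⟨u, hu⟩ := hxu
    rw [← hu] at e2
    have e3 := congrArg (fun M => M * (↑u⁻¹ : Matrix (Fin 2) (Fin 2) A)) e2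
    simp only [smul_mul_assoc, Units.mul_inv, zero_mul] at e3
    have e4 := congrFun (congrFun e3 0) 0
    rw [hu] at e4
    rw [h]
    simpa using e4
  · -- `a ^ 2 = w`
    have haa : a * (a * w ^ m') = 1 := by rw [← mul_assoc, ← pow_two, h, hww]
    have e1 : x ^ 3 = (-a ^ 3) • (1 : Matrix (Fin 2) (Fin 2) A) := by
      refine hpow 3 (-a ^ 3) (-(a * w ^ m') ^ 3) ?_ ?_ ?_
      · have := congrArg (fun y => y ^ 3) haa
        simp only [mul_pow, one_pow] at this
        linear_combination this
      · rw [pow_mul, neg_sq, ← pow_mul, ← pow_mul, show 3 * (2 * (m' + 1)) = 2 * ((m' + 1) * 3) by ring,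
          pow_mul a 2, h, pow_mul, hw, one_pow]
      · rw [pow_succ, pow_two, map_mul, map_mul, hCHk, sub_mul, smul_mul_assoc, smul_mul_assoc,
          one_mul, hCHk, ← h]
        ext i j
        by_cases hij : i = j
        · subst hij
          simp
          ring
        · simp [hij]
          ring
    have e2 : (x.trace - a) • ((x.trace + a) • x - (a ^ 2) • (1 : Matrix (Fin 2) (Fin 2) A)) = 0 := by
      have h6 : x ^ 3 = (x.trace ^ 2 - w) • x - (x.trace * w) • (1 : Matrix (Fin 2) (Fin 2) A) := by
        rw [pow_succ, pow_two, hCH, sub_mul, smul_mul_assoc, smul_mul_assoc, one_mul, hCH]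
        module
      have h7 : (x.trace ^ 2 - w) • x - (x.trace * w) • (1 : Matrix (Fin 2) (Fin 2) A) -
          (-a ^ 3) • (1 : Matrix (Fin 2) (Fin 2) A) = 0 := by rw [← h6, e1, sub_self]
      rw [← h7, ← h]
      module
    have e3 := cancel f hf e2 (by
      rw [hdet, map_add, map_sub, map_mul, map_mul, map_mul, map_pow, map_pow, map_pow, map_add, ht,
        ← h, map_pow]
      have : (f a + f a) ^ 2 * f a ^ 2 - (f a + f a) * f a ^ 2 * f a + (f a ^ 2) ^ 2 =
          3 * f w ^ 2 := by
        rw [← h, map_pow]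
        ring
      rw [this]
      exact mul_ne_zero h3 (pow_ne_zero _ hwk))
    exact sub_eq_zero.1 e3
  · -- `a = 2 z`
    have hzz : z * (z * w ^ m') = 1 := by rw [← mul_assoc, ← pow_two, hz, hww]
    have hzk : f z ≠ 0 := by
      intro h
      have := congrArg f hzz
      rw [map_mul, h, zero_mul, map_one] at this
      exact zero_ne_one this
    have hred : f.mapMatrix x = f z • 1 := by
      set X := f.mapMatrix x with hX
      set V : Matrix (Fin 2) (Fin 2) k := (f z)⁻¹ • X with hV
      have hXV : X = f z • V := by rw [hV, smul_smul, mul_inv_cancel₀ hzk, one_smul]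
      have e1 : (V - 1) * (V - 1) = 0 := by
        have e2 : V * V = (2 : k) • V - (1 : k) • 1 := by
          rw [hV, smul_mul_smul_comm, hCHk, h, ← hz, map_mul, map_ofNat, map_pow, smul_sub,
            smul_smul, smul_smul, smul_smul]
          congr 1
          · congr 1
            field_simp
          · congr 1
            field_simp
        rw [sub_mul, mul_sub, mul_sub, e2, mul_one, one_mul, mul_one]
        module
      have e3 : ∀ i : ℕ, V ^ i * (V - 1) = V - 1 := by
        intro i
        induction i with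
        | zero => rw [pow_zero, one_mul]
        | succ i ih =>
          have : V * (V - 1) = V - 1 := by
            have : V * (V - 1) = (V - 1) * (V - 1) + (V - 1) := by noncomm_ring
            rw [this, e1, zero_add]
          rw [pow_succ, mul_assoc, this, ih]
      have e4 : V ^ (2 * (m' + 1) * N) = 1 := by
        have hXN : X ^ N = 1 := by rw [hX, ← map_pow, hx, map_one]
        have hz2 : ((f z)⁻¹) ^ (2 * (m' + 1) * N) = 1 := by
          rw [inv_pow, ← map_pow, mul_assoc, pow_mul, hz, pow_mul, hw, one_pow, map_one, inv_one]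
        rw [hV, smul_pow, hz2, one_smul, mul_comm, pow_mul, hXN, one_pow]
      have e5 := geom_sum_mul V (2 * (m' + 1) * N)
      rw [e4, sub_self, Finset.sum_mul] at e5
      simp only [e3] at e5
      rw [Finset.sum_const, Finset.card_range, ← Nat.cast_smul_eq_nsmul k,
        smul_eq_zero_iff_right hNm] at e5
      rw [hXV, sub_eq_zero.1 e5]
    have e1 : x ^ 1 = z • (1 : Matrix (Fin 2) (Fin 2) A) := by
      refine hpow 1 z (z * w ^ m') hzz ?_ ?_
      · rw [pow_mul, hz, hw]
      · rw [pow_one, hred]
        ext i j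
        by_cases hij : i = j
        · subst hij
          simp
        · simp [hij]
    rw [pow_one] at e1
    rw [e1, h]
    simp [Matrix.trace, Fin.sum_univ_succ]
  · -- the golden case
    have hbb : b * (b - 2) ^ 2 = 1 := by linear_combination (b - 1) * hb
    set c : A := -a * w ^ 2 * (b - 2) with hc
    have hc2 : c ^ 2 = w ^ 5 := by
      rw [hc]
      linear_combination w ^ 4 * (b - 2) ^ 2 * h + w ^ 5 * hbb
    have hcm : c ^ (2 * (m' + 1)) = 1 := by
      rw [pow_mul, hc2, ← pow_mul, mul_comm, pow_mul, hw, one_pow]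
    have hCH3 : ∀ {R : Type} [CommRing R] (y : Matrix (Fin 2) (Fin 2) R) (s t : R),
        y * y = s • y - t • 1 → y ^ 5 = (s ^ 4 - 3 * s ^ 2 * t + t ^ 2) • y -
          (t * (s ^ 3 - 2 * s * t)) • (1 : Matrix (Fin 2) (Fin 2) R) := by
      intro R _ y s t hy
      have h3 : y ^ 3 = (s ^ 2 - t) • y - (s * t) • (1 : Matrix (Fin 2) (Fin 2) R) := by
        rw [pow_succ, pow_two, hy, sub_mul, smul_mul_assoc, smul_mul_assoc, one_mul, hy]
        module
      have h4 : y ^ 4 = (s ^ 3 - 2 * s * t) • y -
          (t * (s ^ 2 - t)) • (1 : Matrix (Fin 2) (Fin 2) R) := by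
        rw [pow_succ, h3, sub_mul, smul_mul_assoc, smul_mul_assoc, one_mul, hy]
        module
      rw [pow_succ, h4, sub_mul, smul_mul_assoc, smul_mul_assoc, one_mul, hy]
      module
    have e1 : x ^ 5 = c • (1 : Matrix (Fin 2) (Fin 2) A) := by
      obtain ⟨c', hcc⟩ : ∃ c', c * c' = 1 := ⟨c ^ (2 * m' + 1), by
        rw [← pow_succ', show 2 * m' + 1 + 1 = 2 * (m' + 1) by ring, hcm]⟩
      refine hpow 5 c c' hcc hcm ?_
      rw [map_pow, hCH3 _ _ _ hCHk]
      have e0 : f a ^ 4 - 3 * f a ^ 2 * f w + f w ^ 2 = 0 := by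
        have : a ^ 4 - 3 * a ^ 2 * w + w ^ 2 = 0 := by
          linear_combination (a ^ 2 + b * w - 3 * w) * h + w ^ 2 * hb
        have := congrArg f this
        simpa only [map_add, map_sub, map_mul, map_pow, map_ofNat, map_zero] using this
      have e2 : f w * (f a ^ 3 - 2 * f a * f w) = - f c := by
        have : w * (a ^ 3 - 2 * a * w) = -c := by
          rw [hc]
          linear_combination a * w * h
        have := congrArg f this
        simpa only [map_add, map_sub, map_mul, map_pow, map_ofNat, map_neg] using this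
      rw [e0, e2]
      ext i j
      by_cases hij : i = j
      · subst hij
        simp
      · simp [hij]
    have e2 := hCH3 x _ _ hCH
    rw [e1] at e2
    set t := x.trace with ht'
    have e3 : (t - a) • (((t + a) * (t ^ 2 + a ^ 2 - 3 * w)) • x -
        (w * (t ^ 2 + t * a + a ^ 2 - 2 * w)) • (1 : Matrix (Fin 2) (Fin 2) A)) = 0 := by
      have h6 : (t ^ 4 - 3 * t ^ 2 * w + w ^ 2) • x -
          (w * (t ^ 3 - 2 * t * w)) • (1 : Matrix (Fin 2) (Fin 2) A) -
          c • (1 : Matrix (Fin 2) (Fin 2) A) = 0 := by rw [← e2, sub_self]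
      have h7 : t ^ 4 - 3 * t ^ 2 * w + w ^ 2 =
          (t - a) * ((t + a) * (t ^ 2 + a ^ 2 - 3 * w)) := by
        linear_combination (a ^ 2 + b * w - 3 * w) * h + w ^ 2 * hb
      have h8 : w * (t ^ 3 - 2 * t * w) + c =
          (t - a) * (w * (t ^ 2 + t * a + a ^ 2 - 2 * w)) := by
        rw [hc]
        linear_combination a * w * h
      rw [smul_sub, smul_smul, smul_smul, ← h7, ← h8, ← h6]
      module
    have e4 := cancel f hf e3 (by
      rw [hdet]
      simp only [map_add, map_sub, map_mul, map_pow, map_ofNat]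
      rw [← ht', ht]
      have hbk : f b ^ 2 - 3 * f b + 1 = 0 := by
        have := congrArg f hb
        simpa only [map_add, map_sub, map_mul, map_pow, map_ofNat, map_one, map_zero] using this
      have hak : f a ^ 2 = f b * f w := by
        have := congrArg f h
        simpa only [map_mul, map_pow] using this
      have hkey : ((f a + f a) * (f a ^ 2 + f a ^ 2 - 3 * f w)) ^ 2 * f w -
          (f a + f a) * (f a ^ 2 + f a ^ 2 - 3 * f w) *
            (f w * (f a ^ 2 + f a * f a + f a ^ 2 - 2 * f w)) * f a +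
          (f w * (f a ^ 2 + f a * f a + f a ^ 2 - 2 * f w)) ^ 2 = 5 * (f b + 1) * f w ^ 4 := by
        generalize f a = a' at *
        generalize f w = w' at *
        generalize f b = b' at *
        have e5 : a' ^ 4 = b' ^ 2 * w' ^ 2 := by
          linear_combination (a' ^ 2 + b' * w') * hak
        have e6 : a' ^ 6 = b' ^ 3 * w' ^ 3 := by
          linear_combination (a' ^ 4 + a' ^ 2 * (b' * w') + (b' * w') ^ 2) * hak
        ring_nf
        ring_nf at e5 e6 hak
        rw [e5, e6, hak]
        linear_combination (w' ^ 4 * (4 * b' - 1)) * hbk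
      rw [hkey]
      refine mul_ne_zero (mul_ne_zero h5 ?_) (pow_ne_zero _ hwk)
      intro h0
      apply h5
      linear_combination (4 - f b) * h0 + hbk)
    exact sub_eq_zero.1 e4

end Pool.Agent.H70B
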