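import Pool.Agent.W_7742ab_h70.Lif

/-! Lifting representations of finite groups modulo powers of a maximal ideal. -/

set_option autoImplicit false

noncomputable section

namespace Pool.Agent.H70B

variable {O : Type} [CommRing O] (l : Ideal O)

/-- The exponents. -/
def ex (j : ℕ) : ℕ := 2 ^ j

lemma ex_pos (j : ℕ) : ex j ≠ 0 := by
  unfold ex
  positivity

/-- The reduction modulo `l` of the quotient by a power. -/
def red (j : ℕ) : O ⧸ l ^ ex j →+* O ⧸ l :=
  Ideal.Quotient.factor (Ideal.pow_le_self (ex_pos j))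

lemma red_mk (j : ℕ) (x : O) :
    red l j (Ideal.Quotient.mk (l ^ ex j) x) = Ideal.Quotient.mk l x := rfl

/-- The transition maps. -/
def trn (j : ℕ) : O ⧸ l ^ ex (j + 1) →+* O ⧸ l ^ ex j :=
  Ideal.Quotient.factor (Ideal.pow_le_pow_right (by unfold ex; rw [pow_succ]; omega))

lemma trn_mk (j : ℕ) (x : O) :
    trn l j (Ideal.Quotient.mk (l ^ ex (j + 1)) x) = Ideal.Quotient.mk (l ^ ex j) x := rfl

lemma trn_surjective (j : ℕ) : Function.Surjective (trn l j) := by
  intro x
  obtain ⟨x, rfl⟩ := Ideal.Quotient.mk_surjective x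
  exact ⟨Ideal.Quotient.mk _ x, rfl⟩

lemma red_trn (j : ℕ) (x : O ⧸ l ^ ex (j + 1)) : red l j (trn l j x) = red l (j + 1) x := by
  obtain ⟨x, rfl⟩ := Ideal.Quotient.mk_surjective x
  rfl

lemma trn_sq_zero (j : ℕ) (x y : O ⧸ l ^ ex (j + 1)) (hx : trn l j x = 0) (hy : trn l j y = 0) :
    x * y = 0 := by
  obtain ⟨x, rfl⟩ := Ideal.Quotient.mk_surjective x
  obtain ⟨y, rfl⟩ := Ideal.Quotient.mk_surjective y
  rw [trn_mk, Ideal.Quotient.eq_zero_iff_mem] at hx hy
  rw [← map_mul, Ideal.Quotient.eq_zero_iff_mem]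
  have h : ex (j + 1) = ex j + ex j := by
    unfold ex
    rw [pow_succ]
    ring
  rw [h, pow_add]
  exact Ideal.mul_mem_mul hx hy

/-- The quotients by powers of a maximal ideal reflect units. -/
lemma isUnit_of_red [l.IsMaximal] (j : ℕ) {x : O ⧸ l ^ ex j} (hx : IsUnit (red l j x)) :
    IsUnit x := by
  induction j with
  | zero =>
    have h : Function.Injective (red l 0) := by
      rw [injective_iff_map_eq_zero]
      intro y hy
      obtain ⟨y, rfl⟩ := Ideal.Quotient.mk_surjective y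
      rw [red_mk, Ideal.Quotient.eq_zero_iff_mem] at hy
      rw [Ideal.Quotient.eq_zero_iff_mem]
      simpa [ex] using hy
    have h2 : Function.Surjective (red l 0) := by
      intro y
      obtain ⟨y, rfl⟩ := Ideal.Quotient.mk_surjective y
      exact ⟨Ideal.Quotient.mk _ y, rfl⟩
    exact (MulEquiv.isUnit_map (RingEquiv.ofBijective _ ⟨h, h2⟩ : O ⧸ l ^ ex 0 ≃+* O ⧸ l)).1 hx
  | succ j ih =>
    refine isUnit_of_sq_zero (trn l j) (trn_surjective l j) (trn_sq_zero l j) (ih ?_)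
    rwa [red_trn]

theorem exists_tower [l.IsMaximal] {G : Type} [Group G] [Finite G]
    (hG : ((Nat.card G : ℕ) : O) ∉ l) {n : ℕ} (ρ : G →* Matrix (Fin n) (Fin n) (O ⧸ l)) (j : ℕ) :
    ∃ ρ' : G →* Matrix (Fin n) (Fin n) (O ⧸ l ^ ex j), ∀ g, (ρ' g).map (red l j) = ρ g := by
  have hunit : ∀ j, IsUnit ((Nat.card G : ℕ) : O ⧸ l ^ ex j) := by
    intro j
    refine isUnit_of_red l j ?_
    have hf : IsField (O ⧸ l) := (Ideal.Quotient.maximal_ideal_iff_isField_quotient l).1 ‹_›
    let _ := hf.toField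
    refine isUnit_iff_ne_zero.2 ?_
    rw [map_natCast, ← map_natCast (Ideal.Quotient.mk l)]
    exact fun h => hG (Ideal.Quotient.eq_zero_iff_mem.1 h)
  induction j with
  | zero =>
    have h : Function.Surjective (Ideal.Quotient.factor (S := l) (T := l ^ ex 0)
        (by simp [ex])) := by
      intro y
      obtain ⟨y, rfl⟩ := Ideal.Quotient.mk_surjective y
      exact ⟨Ideal.Quotient.mk _ y, rfl⟩
    set e : O ⧸ l →+* O ⧸ l ^ ex 0 := Ideal.Quotient.factor (by simp [ex]) with he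
    refine ⟨e.mapMatrix.toMonoidHom.comp ρ, fun g => ?_⟩
    ext i k
    show red l 0 (e (ρ g i k)) = ρ g i k
    obtain ⟨y, hy⟩ := Ideal.Quotient.mk_surjective (ρ g i k)
    rw [← hy]
    rfl
  | succ j ih =>
    obtain ⟨ρ', h'⟩ := ih
    obtain ⟨ρ'', h''⟩ := exists_lift_sq_zero (trn l j) (trn_surjective l j) (trn_sq_zero l j)
      (hunit (j + 1)) ρ'
    refine ⟨ρ'', fun g => ?_⟩
    rw [← h' g, ← h'' g]
    ext i k
    show red l (j + 1) (ρ'' g i k) = red l j (trn l j (ρ'' g i k))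
    rw [red_trn]

end Pool.Agent.H70B
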