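import Pool.Agent.W_7742ab_h70.Cnt
import Pool.Agent.W_7742ab_h70.Tow
import Pool.Agent.W_7742ab_h70.Cmp
import Pool.Agent.W_7742z_h74.Frb

/-! Lifting the representation modulo all powers of the maximal ideal. -/

set_option autoImplicit false

noncomputable section

namespace Pool.Agent.H70B

open Matrix Filter Topology
open Pool.Agent.GalSide

variable {Γ : Type} [Group Γ] [TopologicalSpace Γ] [IsTopologicalGroup Γ] [CompactSpace Γ]

section types

variable {O : Type} [CommRing O] (l : Ideal O) [l.IsMaximal]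

lemma not_mem_of_mul {n m : ℕ} (h : ((n * m : ℕ) : O) ∉ l) : ((n : ℕ) : O) ∉ l := by
  intro h1
  apply h
  rw [Nat.cast_mul]
  exact Ideal.mul_mem_right _ _ h1

lemma mk_natCast_ne {n : ℕ} (h : ((n : ℕ) : O) ∉ l) : ((n : ℕ) : O ⧸ l) ≠ 0 := by
  rw [← map_natCast (Ideal.Quotient.mk l)]
  exact fun h1 => h (Ideal.Quotient.eq_zero_iff_mem.1 h1)

lemma Typ.map {R S : Type} [CommRing R] [CommRing S] (f : R →+* S) {a w : R} (h : Typ a w) :
    Typ (f a) (f w) := by
  rcases h with h | h | ⟨z, h1, h2⟩ | ⟨b, h1, h2⟩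
  · exact Or.inl (by rw [h, map_zero])
  · exact Or.inr (Or.inl (by rw [← map_pow, h]))
  · exact Or.inr (Or.inr (Or.inl ⟨f z, by rw [h1, map_mul, map_ofNat], by rw [← map_pow, h2]⟩))
  · refine Or.inr (Or.inr (Or.inr ⟨f b, ?_, ?_⟩))
    · have := congrArg f h1
      simpa only [map_add, map_sub, map_mul, map_pow, map_ofNat, map_one, map_zero] using this
    · rw [← map_pow, h2, map_mul]

/-- If the reduction satisfies `a ^ 2 = 4 w` then so does the pair. -/
lemma four_of_red {k : Type} [Field k] (f : O →+* k) (h30 : (30 : k) ≠ 0) {a w : O} {m : ℕ}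
    (hw : w ^ m = 1) (hm : m ≠ 0) (hT : Typ a w) (h : f a ^ 2 = 4 * f w) : a ^ 2 = 4 * w := by
  have h2 : (2 : k) ≠ 0 := fun h => h30 (by rw [show (30 : k) = 2 * 15 by norm_num, h, zero_mul])
  have h3 : (3 : k) ≠ 0 := fun h => h30 (by rw [show (30 : k) = 3 * 10 by norm_num, h, zero_mul])
  have h5 : (5 : k) ≠ 0 := fun h => h30 (by rw [show (30 : k) = 5 * 6 by norm_num, h, zero_mul])
  have hwk : f w ≠ 0 := by
    intro h0
    have := congrArg f hw
    rw [map_pow, h0, zero_pow hm, map_one] at this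
    exact zero_ne_one this
  rcases hT with h1 | h1 | ⟨z, h1, h1'⟩ | ⟨b, h1, h1'⟩
  · exfalso
    rw [h1, map_zero] at h
    have : (2 : k) * 2 * f w = 0 := by linear_combination -h
    exact mul_ne_zero (mul_ne_zero h2 h2) hwk this
  · exfalso
    rw [← map_pow, h1] at h
    have : (3 : k) * f w = 0 := by linear_combination -h
    exact mul_ne_zero h3 hwk this
  · rw [h1, mul_pow, h1']
    norm_num
  · exfalso
    rw [← map_pow, h1', map_mul] at h
    have h4 := mul_right_cancel₀ hwk h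
    have := congrArg f h1
    simp only [map_add, map_sub, map_mul, map_pow, map_ofNat, map_one, map_zero] at this
    rw [h4] at this
    apply h5
    linear_combination this

lemma TypG_of_Typ {k : Type} [Field k] {x : Matrix (Fin 2) (Fin 2) k} {a w : k}
    (ha : x.trace = a) (hw : x.det = w) (hT : Typ a w) : TypG x := by
  unfold TypG
  rw [ha, hw]
  rcases hT with h | h | ⟨z, h1, h2⟩ | h
  · exact Or.inl h
  · exact Or.inr (Or.inl h)
  · exact Or.inr (Or.inr (Or.inl (by rw [h1, ← h2]; ring)))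
  · exact Or.inr (Or.inr (Or.inr h))

end types

theorem exists_lift {O : Type} [CommRing O] (l : Ideal O) [l.IsMaximal] (Φ : FrobeniusData Γ)
    (a w : Nat.Primes → O) {m : ℕ} (hm0 : ((30 * m : ℕ) : O) ∉ l)
    (r : Γ →* GL (Fin 2) (O ⧸ l)) (hr : IsOpen (r.ker : Set Γ)) {X : Set Nat.Primes}
    (hX : HasDensity X 0)
    (hXr : ∀ p ∉ X, w p ^ m = 1 ∧ Typ (a p) (w p) ∧
      (r (Φ.frob p)).val.trace = Ideal.Quotient.mk l (a p) ∧
      (r (Φ.frob p)).val.det = Ideal.Quotient.mk l (w p))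
    {η : ℝ} (hη : η < 1 / 16)
    (hfour : ∀ᶠ s : ℝ in 𝓝[>] 1, primeSum {p | p ∈ X ∨ a p ^ 2 = 4 * w p} s ≤
      η * Real.log (1 / (s - 1))) (j : ℕ) :
    ∃ ρ : Γ →* GL (Fin 2) (O ⧸ l ^ ex j), IsOpen (ρ.ker : Set Γ) ∧
      ∀ p ∉ X, (ρ (Φ.frob p)).val.trace = Ideal.Quotient.mk _ (a p) ∧
        (ρ (Φ.frob p)).val.det = Ideal.Quotient.mk _ (w p) := by
  classical
  let _ := Ideal.Quotient.field l
  have h30' : ((30 : ℕ) : O ⧸ l) ≠ 0 := mk_natCast_ne l (not_mem_of_mul l hm0)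
  have h30 : (30 : O ⧸ l) ≠ 0 := by exact_mod_cast h30'
  have hmk : ((m : ℕ) : O ⧸ l) ≠ 0 := by
    refine mk_natCast_ne l (not_mem_of_mul l (m := 30) ?_)
    rwa [mul_comm]
  have hm : m ≠ 0 := by
    rintro rfl
    simp at hmk
  have h2 : (2 : O ⧸ l) ≠ 0 := fun h =>
    h30 (by rw [show (30 : O ⧸ l) = 2 * 15 by norm_num, h, zero_mul])
  set U : Subgroup Γ := r.ker with hU
  have hfin : Finite (Γ ⧸ U) := Subgroup.quotient_finite_of_isOpen U hr
  -- the representation of the finite group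
  let r1 : Γ ⧸ U →* GL (Fin 2) (O ⧸ l) := QuotientGroup.kerLift r
  let r2 : Γ ⧸ U →* Matrix (Fin 2) (Fin 2) (O ⧸ l) := (Units.coeHom _).comp r1
  have hr2 : ∀ g : Γ, r2 (QuotientGroup.mk g) = (r g).val := fun g => rfl
  have hinj : Function.Injective r2 := by
    intro x y h
    exact QuotientGroup.kerLift_injective r (Units.ext h)
  have hconj : ∀ x y : Γ ⧸ U, IsConj x y → (r2 x).trace = (r2 y).trace ∧
      (r2 x).det = (r2 y).det := by
    intro x y h
    obtain ⟨c, hc⟩ := isConj_iff.1 h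
    rw [← hc, trace_conj, det_conj]
    exact ⟨rfl, rfl⟩
  have hTG : ∀ g : Γ ⧸ U, TypG (r2 g) := by
    intro g
    obtain ⟨g, rfl⟩ := QuotientGroup.mk_surjective g
    obtain ⟨p, hp, hc⟩ := Pool.Agent.OneI74.exists_frob Φ U hr g hX
    obtain ⟨h1, h3, h4, h5⟩ := hXr p hp
    obtain ⟨c1, c2⟩ := hconj _ _ hc
    rw [hr2, h4] at c1
    rw [hr2, h5] at c2
    exact TypG_of_Typ c1.symm c2.symm (h3.map (Ideal.Quotient.mk l))
  have hcard : (Nat.card (NN r2) : ℝ) ≤ η * Nat.card (Γ ⧸ U) := by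
    refine card_le_of_frob Φ U hr (NN r2) ?_ _ ∅ Set.finite_empty η hfour ?_
    · intro x hx y hxy
      obtain ⟨c1, c2⟩ := hconj _ _ hxy
      change (r2 y).trace ^ 2 = 4 * (r2 y).det
      rw [← c1, ← c2]
      exact hx
    · intro p _ hp
      by_cases hpX : p ∈ X
      · exact Or.inl hpX
      right
      obtain ⟨h1, h3, h4, h5⟩ := hXr p hpX
      have hp' : (r2 (QuotientGroup.mk (Φ.frob p))).trace ^ 2 =
        4 * (r2 (QuotientGroup.mk (Φ.frob p))).det := hp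
      rw [hr2, h4, h5] at hp'
      exact four_of_red (Ideal.Quotient.mk l) h30 h1 hm h3 hp'
  have hpos : (0 : ℝ) < (Nat.card (Γ ⧸ U) : ℝ) := by
    exact_mod_cast (Nat.card_pos : 0 < Nat.card (Γ ⧸ U))
  have hN : 16 * Nat.card (NN r2) < Nat.card (Γ ⧸ U) := by
    have : (16 * Nat.card (NN r2) : ℝ) < Nat.card (Γ ⧸ U) := by nlinarith
    exact_mod_cast this
  have hcz : ((Nat.card (Γ ⧸ U) : ℕ) : O ⧸ l) ≠ 0 := card_ne_zero r2 h2 hTG hN hinj
  have hG : ((Nat.card (Γ ⧸ U) : ℕ) : O) ∉ l := by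
    intro h
    apply hcz
    rw [← map_natCast (Ideal.Quotient.mk l)]
    exact Ideal.Quotient.eq_zero_iff_mem.2 h
  obtain ⟨ρ', hρ'⟩ := exists_tower l hG r2 j
  let ρ : Γ →* GL (Fin 2) (O ⧸ l ^ ex j) := (ρ'.comp (QuotientGroup.mk' U)).toHomUnits
  have hρ : ∀ g, (ρ g).val = ρ' (QuotientGroup.mk g) := fun g => rfl
  refine ⟨ρ, Subgroup.isOpen_mono (H₁ := U) (fun g hg => MonoidHom.mem_ker.2 (Units.ext ?_)) hr,
    fun p hp => ?_⟩
  · rw [hρ, (QuotientGroup.eq_one_iff g).2 hg, map_one]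
    rfl
  · rw [hρ]
    obtain ⟨h1, h3, h4, h5⟩ := hXr p hp
    have hx := hρ' (QuotientGroup.mk (Φ.frob p))
    set x := ρ' (QuotientGroup.mk (Φ.frob p)) with hxdef
    have hpow : x ^ Nat.card (Γ ⧸ U) = 1 := by
      rw [hxdef, ← map_pow, pow_card_eq_one', map_one]
    refine trace_eq (red l j) (fun y hy => isUnit_of_red l j (isUnit_iff_ne_zero.2 hy)) hpow hcz
      (a := Ideal.Quotient.mk (l ^ ex j) (a p)) (w := Ideal.Quotient.mk (l ^ ex j) (w p)) (m := m)
      ?_ hmk h30 (h3.map _) ?_ ?_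
    · rw [← map_pow, h1, map_one]
    · rw [red_mk, ← h4, ← hr2, ← hx]
      simp [Matrix.trace]
    · rw [red_mk, ← h5, ← hr2, ← hx]
      exact RingHom.map_det (red l j) x

end Pool.Agent.H70B
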