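import Pool.Agent.W_7742aa_h70.LpY
import Pool.Agent.W_7742ab_h70.Dch

/-! From the densities of the values of `b p` to the hypotheses of the lifting theorem. -/

set_option autoImplicit false

noncomputable section

namespace Pool.Agent.H70B

open Filter Topology NumberField
open Pool.Agent.H70A
open Pool.Agent.H74V.SatakeSystem (DensityLE pS_eq pS_true)
open Pool.Agent.GalSide (Chb_log Chb_gt HasDensity)

/-- The two notations for sums over primes. -/
lemma pS_set (P : ℕ → Prop) (s : ℝ) :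
    Pool.Agent.GalSide.primeSum {p : Nat.Primes | P p} s =
      Pool.Agent.H74V.SatakeSystem.primeSum P s := by
  classical
  rw [pS_eq]
  unfold Pool.Agent.GalSide.primeSum
  refine tsum_congr fun p => ?_
  by_cases h : P p
  · rw [Set.indicator_of_mem (show p ∈ {p : Nat.Primes | P p} from h)]
    simp [Pool.Agent.H74E.SatakeSystem.ind, h]
  · rw [Set.indicator_of_notMem (show p ∉ {p : Nat.Primes | P p} from h)]
    simp [Pool.Agent.H74E.SatakeSystem.ind, h]

lemma ev_le {P : ℕ → Prop} {θ η : ℝ} (hθ : 0 ≤ θ) (h : DensityLE P θ) (hη : θ < η) :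
    ∀ᶠ s in 𝓝[>] (1 : ℝ), Pool.Agent.H74V.SatakeSystem.primeSum P s ≤
      η * Real.log (1 / (s - 1)) := by
  obtain ⟨C, hC⟩ := true_le
  set ε := (η - θ) / 2 with hε
  have hε0 : 0 < ε := by rw [hε]; linarith
  have h1 := h ε hε0
  have h2 := Chb_log.eventually_ge_atTop ((θ + ε) * C / ε)
  filter_upwards [hC, h1, h2] with s a1 a2 a3
  have a4 : (θ + ε) * C ≤ ε * Real.log (1 / (s - 1)) := by
    rw [div_le_iff₀ hε0] at a3
    linarith
  have a5 : (θ + ε) * Pool.Agent.H74V.SatakeSystem.primeSum (fun _ => True) s ≤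
      (θ + ε) * (LL s + C) := mul_le_mul_of_nonneg_left a1 (by linarith)
  have a6 : LL s = Real.log (1 / (s - 1)) := rfl
  rw [a6] at a5
  have a7 : η = θ + ε + ε := by rw [hε]; ring
  rw [a7]
  nlinarith

lemma hasDensity_zero {P : ℕ → Prop} (h : DensityLE P 0) :
    HasDensity {p : Nat.Primes | P p} 0 := by
  unfold Pool.Agent.GalSide.HasDensity
  rw [Metric.tendsto_nhds]
  intro ε hε
  have h1 := ev_le le_rfl h (show (0 : ℝ) < ε / 2 by linarith)
  filter_upwards [h1, Chb_log.eventually_gt_atTop 0, Chb_gt] with s a1 a2 a3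
  have a4 : 0 ≤ Pool.Agent.GalSide.primeSum {p : Nat.Primes | P p} s :=
    Pool.Agent.GalSide.Chb_nonneg _ _
  rw [Real.dist_eq, sub_zero, abs_of_nonneg (div_nonneg a4 a2.le), div_lt_iff₀ a2, pS_set]
  nlinarith

section typ

variable {F K : Type} [Field F] [NumberField F] [Field K] [NumberField K] (ι : F →+* K)

omit [NumberField K] in
lemma inj_coe {x y : 𝓞 K} (h : algebraMap (𝓞 K) K x = algebraMap (𝓞 K) K y) : x = y :=
  RingOfIntegers.coe_injective h

omit [NumberField F] in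
lemma typ_of_b {a w : 𝓞 K} {b : F} (hb : IsIntegral ℤ b) (h : (a : K) ^ 2 = ι b * (w : K))
    (hT : b = 0 ∨ b = 1 ∨ b = 4 ∨ b ^ 2 - 3 * b + 1 = 0) : Typ a w := by
  rcases hT with h1 | h1 | h1 | h1
  · left
    rw [h1, map_zero, zero_mul] at h
    have : (a : K) = 0 := pow_eq_zero_iff two_ne_zero |>.1 h
    apply inj_coe
    rw [map_zero]
    exact this
  · right; left
    rw [h1, map_one, one_mul] at h
    apply inj_coe
    rw [map_pow]
    exact h
  · right; right; left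
    rw [h1, map_ofNat] at h
    have hz : ((a : K) / 2) ^ 2 = (w : K) := by
      rw [div_pow, h]
      field_simp
      ring
    have hint : IsIntegral ℤ ((a : K) / 2) := by
      refine IsIntegral.of_pow (n := 2) (by norm_num) ?_
      rw [hz]
      exact w.2
    obtain ⟨z, hz'⟩ : ∃ z : 𝓞 K, algebraMap (𝓞 K) K z = (a : K) / 2 := ⟨⟨_, hint⟩, rfl⟩
    refine ⟨z, ?_, ?_⟩
    · apply inj_coe
      rw [map_mul, map_ofNat, hz']
      change (a : K) = 2 * ((a : K) / 2)
      field_simp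
    · apply inj_coe
      rw [map_pow, hz']
      exact hz
  · right; right; right
    have hint : IsIntegral ℤ (ι b) := map_isIntegral_int ι hb
    obtain ⟨z, hz⟩ : ∃ z : 𝓞 K, algebraMap (𝓞 K) K z = ι b := ⟨⟨_, hint⟩, rfl⟩
    refine ⟨z, ?_, ?_⟩
    · apply inj_coe
      rw [map_add, map_sub, map_mul, map_pow, map_ofNat, map_one, map_zero, hz]
      have := congrArg ι h1
      simpa only [map_add, map_sub, map_mul, map_pow, map_ofNat, map_one, map_zero] using this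
    · apply inj_coe
      rw [map_pow, map_mul, hz]
      exact h

end typ

section mean

variable {F K : Type} [Field F] [NumberField F] [Field K] [NumberField K] {π : AdjointSystem F}

omit [NumberField K] in
/-- The absolute values of the conjugates. -/
lemma norms (hs : ∀ σ : F →+* ℂ, π.IsSquareModulus σ) (ι : F →+* K) {p : ℕ} (hp : π.Good p)
    {a w : 𝓞 K} {m : ℕ} (hm : m ≠ 0) (hw : w ^ m = 1) (h : (a : K) ^ 2 = ι (π.b p) * (w : K))
    (σ : K →+* ℂ) : ‖σ (w : K)‖ = 1 ∧ ‖σ (a : K)‖ ^ 2 = π.r (σ.comp ι) p := by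
  have h1 : ‖σ (w : K)‖ = 1 := by
    refine Complex.norm_eq_one_of_pow_eq_one (n := m) ?_ hm
    rw [← map_pow]
    have e : (w : K) ^ m = 1 := by
      have := congrArg (algebraMap (𝓞 K) K) hw
      rwa [map_pow, map_one] at this
    rw [e, map_one]
  refine ⟨h1, ?_⟩
  have h2 := congrArg (fun x => ‖σ x‖) h
  simp only [map_pow, map_mul, norm_pow, norm_mul, h1, mul_one] at h2
  rw [h2]
  have h3 := AdjointSystem.r_eq (hs (σ.comp ι)) hp
  rw [RingHom.comp_apply] at h3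
  rw [h3, Complex.norm_real, Real.norm_of_nonneg (AdjointSystem.r_nonneg (hs _) hp)]

lemma r_le (hs : ∀ σ : F →+* ℂ, π.IsSquareModulus σ) (σ : F →+* ℂ) {p : ℕ} (hp : π.Good p)
    (hT : π.b p = 0 ∨ π.b p = 1 ∨ π.b p = 4 ∨ π.b p ^ 2 - 3 * π.b p + 1 = 0) :
    π.r σ p ≤ 4 := by
  have h1 := AdjointSystem.r_eq (hs σ) hp
  have h0 := AdjointSystem.r_nonneg (hs σ) hp
  rcases hT with h | h | h | h
  · rw [h, map_zero] at h1
    have : π.r σ p = 0 := by exact_mod_cast h1.symm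
    linarith
  · rw [h, map_one] at h1
    have : π.r σ p = 1 := by exact_mod_cast h1.symm
    linarith
  · rw [h, map_ofNat] at h1
    have : π.r σ p = 4 := by exact_mod_cast h1.symm
    linarith
  · have h2 := congrArg σ h
    simp only [map_add, map_sub, map_mul, map_pow, map_ofNat, map_one, map_zero] at h2
    rw [h1] at h2
    have h3 : π.r σ p ^ 2 - 3 * π.r σ p + 1 = 0 := by exact_mod_cast h2
    nlinarith

open Classical in
/-- The mean of the squares of the absolute values. -/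
theorem mean_le (hs : ∀ σ : F →+* ℂ, π.IsSquareModulus σ) (ι : F →+* K) {a' : Nat.Primes → 𝓞 K}
    {m : ℕ} (hm : m ≠ 0) (hw : ∀ p : Nat.Primes, a' p = 0 ∨
      (π.Good p ∧ ∃ w : 𝓞 K, w ^ m = 1 ∧ (a' p : K) ^ 2 = ι (π.b p) * (w : K))) :
    ∀ ε : ℝ, 0 < ε → ∀ᶠ s : ℝ in 𝓝[>] 1,
      Summable (fun p : Nat.Primes => (∑ σ : K →+* ℂ, ‖σ (a' p : K)‖ ^ 2) *
        ((p : ℕ) : ℝ) ^ (-s)) ∧
      ∑' p : Nat.Primes, (∑ σ : K →+* ℂ, ‖σ (a' p : K)‖ ^ 2) * ((p : ℕ) : ℝ) ^ (-s) ≤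
        ((Module.finrank ℚ K : ℝ) + ε) * Real.log (1 / (s - 1)) := by
  intro ε hε
  have hb : ∀ σ : K →+* ℂ, ∃ C : ℝ, ∀ s : ℝ, 1 < s → s ≤ 2 →
      (Summable fun p : Nat.Primes =>
        (if π.Good p then ((σ.comp ι) (π.b p)).re else 0) * ((p : ℕ) : ℝ) ^ (-s)) ∧
      ∑' p : Nat.Primes, (if π.Good p then ((σ.comp ι) (π.b p)).re else 0) *
        ((p : ℕ) : ℝ) ^ (-s) ≤ LL s + C := fun σ => AdjointSystem.b_mean (hs (σ.comp ι))
  choose C hC using hb
  have e : ∀ (s : ℝ) (p : Nat.Primes), (∑ σ : K →+* ℂ, ‖σ (a' p : K)‖ ^ 2) *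
      ((p : ℕ) : ℝ) ^ (-s) ≤ ∑ σ : K →+* ℂ, (if π.Good p then ((σ.comp ι) (π.b p)).re else 0) *
        ((p : ℕ) : ℝ) ^ (-s) := by
    intro s p
    rw [← Finset.sum_mul]
    refine mul_le_mul_of_nonneg_right (Finset.sum_le_sum fun σ _ => ?_)
      (Real.rpow_nonneg (Nat.cast_nonneg _) _)
    rcases hw p with h0 | ⟨h1, w, h2, h3⟩
    · have h4 : ‖σ (a' p : K)‖ ^ 2 = 0 := by
        rw [h0]
        simp
      rw [h4]
      split_ifs with h5
      · exact AdjointSystem.r_nonneg (hs (σ.comp ι)) h5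
      · exact le_rfl
    · rw [if_pos h1, (norms hs ι h1 hm h2 h3 σ).2]
      exact le_rfl
  have e0 : ∀ (s : ℝ) (p : Nat.Primes), 0 ≤ (∑ σ : K →+* ℂ, ‖σ (a' p : K)‖ ^ 2) *
      ((p : ℕ) : ℝ) ^ (-s) := fun s p =>
    mul_nonneg (Finset.sum_nonneg fun σ _ => sq_nonneg _) (Real.rpow_nonneg (Nat.cast_nonneg _) _)
  have h2 := Chb_log.eventually_ge_atTop ((∑ σ : K →+* ℂ, C σ) / ε)
  have h3 : ∀ᶠ s in 𝓝[>] (1 : ℝ), s < 2 :=
    (eventually_lt_nhds (by norm_num : (1 : ℝ) < 2)).filter_mono nhdsWithin_le_nhds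
  filter_upwards [h2, h3, Chb_gt] with s a2 a3 a1
  have hsum : ∀ σ ∈ (Finset.univ : Finset (K →+* ℂ)), Summable fun p : Nat.Primes =>
      (if π.Good p then ((σ.comp ι) (π.b p)).re else 0) * ((p : ℕ) : ℝ) ^ (-s) :=
    fun σ _ => (hC σ s a1 a3.le).1
  have hS := summable_sum hsum
  have hS' := Summable.of_nonneg_of_le (e0 s) (e s) hS
  refine ⟨hS', ?_⟩
  refine (Summable.tsum_le_tsum (e s) hS' hS).trans ?_
  rw [Summable.tsum_finsetSum hsum]
  have h4 : ∑ σ : K →+* ℂ, ∑' p : Nat.Primes, (if π.Good p then ((σ.comp ι) (π.b p)).re else 0) *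
      ((p : ℕ) : ℝ) ^ (-s) ≤ ∑ σ : K →+* ℂ, (LL s + C σ) :=
    Finset.sum_le_sum fun σ _ => (hC σ s a1 a3.le).2
  rw [Finset.sum_add_distrib, Finset.sum_const, Finset.card_univ, Embeddings.card, nsmul_eq_mul] at h4
  have h5 : LL s = Real.log (1 / (s - 1)) := rfl
  rw [h5] at h4
  rw [div_le_iff₀ hε] at a2
  nlinarith

end mean

end Pool.Agent.H70B
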