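import Pool.Agent.W_7742ab_h70.Grp

/-! Counting: a finite group of `2 × 2` matrices of icosahedral type with few elements of trace
`t ^ 2 = 4 det` has order prime to the characteristic. -/

set_option autoImplicit false

noncomputable section

namespace Pool.Agent.H70B

open Matrix

variable {k : Type} [Field k] {G : Type} [Group G] (r : G →* Matrix (Fin 2) (Fin 2) k)

/-- The non-scalar elements of the kernel of the ratio character. -/
def Kn {v : Fin 2 → k} (hv : v ≠ 0) : Set G :=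
  {g | (∃ hg : g ∈ Stab r v, (⟨g, hg⟩ : Stab r v) ∈ (psiU r hv).ker) ∧ ¬ Scl (r g)}

variable [Finite G]

lemma card_ker_le {v : Fin 2 → k} (hv : v ≠ 0) {u : Stab r v} (hu : u ∈ (psiU r hv).ker)
    (hs : ¬ Scl (r (u : G))) : Nat.card (psiU r hv).ker ≤ 2 * Nat.card (Kn r hv) := by
  classical
  have h1 : Nat.card (psiU r hv).ker = Nat.card (ZB r v) + Nat.card (Kn r hv) := by
    have e := Equiv.sumCompl (fun g : (psiU r hv).ker => Scl (r ((g : Stab r v) : G)))
    rw [← Nat.card_congr e, Nat.card_sum]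
    congr 1
    · refine Nat.card_congr ⟨fun g => ⟨g.1.1, g.2⟩, fun g => ⟨⟨g.1, ZB_le r hv g.2⟩, g.2⟩, ?_, ?_⟩
      · intro g
        rfl
      · intro g
        rfl
    · refine Nat.card_congr ⟨fun g => ⟨((g.1.1 : Stab r v) : G), ⟨g.1.1.2, g.1.2⟩, g.2⟩,
        fun g => ⟨⟨⟨g.1, g.2.1.choose⟩, g.2.1.choose_spec⟩, g.2.2⟩, ?_, ?_⟩
      · intro g
        rfl
      · intro g
        rfl
  have h2 := two_card_ZB r hv hu hs
  omega

omit [Finite G] in
lemma trace_conj (h n : G) : (r (h * n * h⁻¹)).trace = (r n).trace := by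
  rw [map_mul, map_mul, Matrix.trace_mul_comm, ← mul_assoc, r_inv_mul, one_mul]

omit [Finite G] in
lemma det_conj (h n : G) : (r (h * n * h⁻¹)).det = (r n).det := by
  rw [map_mul, map_mul, Matrix.det_mul, Matrix.det_mul]
  have := congrArg Matrix.det (r_mul_inv r h)
  rw [Matrix.det_mul, Matrix.det_one] at this
  linear_combination (r n).det * this

omit [Finite G] in
lemma Kn_spec (h2 : (2 : k) ≠ 0) {v : Fin 2 → k} (hv : v ≠ 0) {n : G} (hn : n ∈ Kn r hv) :
    r n *ᵥ v = ((r n).trace / 2) • v ∧ (r n).trace ^ 2 = 4 * (r n).det := by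
  obtain ⟨⟨hg, hk⟩, -⟩ := hn
  rw [mem_ker] at hk
  have h1 := cc_spec r v ⟨n, hg⟩
  have h3 := eig_root hv h1
  have h0 := cc_ne r hv ⟨n, hg⟩
  simp only at h1 h3 hk
  have h4 : (r n).trace = 2 * cc r v ⟨n, hg⟩ := by
    apply mul_right_cancel₀ h0
    linear_combination -h3 - hk
  constructor
  · rw [h1, h4]
    congr 1
    field_simp
  · rw [h4]
    linear_combination 4 * hk

omit [Finite G] in
lemma Kn_conj (h2 : (2 : k) ≠ 0) {v : Fin 2 → k} (hv : v ≠ 0) {n n' h h' : G}
    (hn : n ∈ Kn r hv) (hn' : n' ∈ Kn r hv) (he : h * n * h⁻¹ = h' * n' * h'⁻¹) :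
    h'⁻¹ * h ∈ Stab r v := by
  have s1 := (Kn_spec r h2 hv hn).1
  have s2 := (Kn_spec r h2 hv hn').1
  have t1 : (r n).trace = (r n').trace := by
    rw [← trace_conj r h n, he, trace_conj]
  rw [← t1] at s2
  set c := (r n).trace / 2
  have a1 : r (h * n * h⁻¹) *ᵥ (r h *ᵥ v) = c • (r h *ᵥ v) := by
    rw [Matrix.mulVec_mulVec, ← map_mul, inv_mul_cancel_right, map_mul, ← Matrix.mulVec_mulVec, s1,
      Matrix.mulVec_smul]
  have a2 : r (h * n * h⁻¹) *ᵥ (r h' *ᵥ v) = c • (r h' *ᵥ v) := by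
    rw [he, Matrix.mulVec_mulVec, ← map_mul, inv_mul_cancel_right, map_mul, ← Matrix.mulVec_mulVec,
      s2, Matrix.mulVec_smul]
  have a0 : r h' *ᵥ v ≠ 0 := by
    intro h0
    apply hv
    have : r h'⁻¹ *ᵥ (r h' *ᵥ v) = v := by
      rw [Matrix.mulVec_mulVec, r_inv_mul, Matrix.one_mulVec]
    rw [← this, h0, Matrix.mulVec_zero]
  by_cases hd : (r h' *ᵥ v) 0 * (r h *ᵥ v) 1 - (r h' *ᵥ v) 1 * (r h *ᵥ v) 0 = 0
  · obtain ⟨a, ha⟩ := prop_of_det a0 hd
    refine ⟨a, ?_⟩
    rw [map_mul, ← Matrix.mulVec_mulVec, ha, Matrix.mulVec_smul, Matrix.mulVec_mulVec, r_inv_mul,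
      Matrix.one_mulVec]
  · exfalso
    have := scalar_of_two a2 a1 hd
    apply hn.2
    refine ⟨c, ?_⟩
    have e : r n = r h⁻¹ * r (h * n * h⁻¹) * r h := by
      rw [← map_mul, ← map_mul]
      congr 1
      group
    rw [e, this, mul_smul_comm, mul_one, smul_mul_assoc, r_inv_mul]

/-- The elements with `t ^ 2 = 4 det`. -/
def NN : Set G := {g | (r g).trace ^ 2 = 4 * (r g).det}

theorem count (h2 : (2 : k) ≠ 0) {v : Fin 2 → k} (hv : v ≠ 0) :
    Nat.card G * Nat.card (Kn r hv) ≤ Nat.card (Stab r v) * Nat.card (NN r) := by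
  classical
  have : Fintype G := Fintype.ofFinite G
  set s : Finset (G × G) := Finset.univ ×ˢ (Finset.univ.filter fun g => g ∈ Kn r hv) with hs
  have hcs : s.card = Nat.card G * Nat.card (Kn r hv) := by
    rw [hs, Finset.card_product, Finset.card_univ, Nat.card_eq_fintype_card]
    congr 1
    rw [Nat.card_eq_fintype_card, Fintype.card_subtype]
  have hfib : ∀ y ∈ s.image (fun x => x.1 * x.2 * x.1⁻¹),
      (s.filter fun x => x.1 * x.2 * x.1⁻¹ = y).card ≤ Nat.card (Stab r v) := by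
    intro y hy
    obtain ⟨⟨h', n'⟩, hx, rfl⟩ := Finset.mem_image.1 hy
    simp only [hs, Finset.mem_product, Finset.mem_filter, Finset.mem_univ, true_and] at hx
    simp only
    rw [Nat.card_eq_fintype_card, ← Fintype.card_coe]
    refine Fintype.card_le_of_injective (fun x => ⟨h'⁻¹ * x.1.1, ?_⟩) ?_
    · have hx' := x.2
      simp only [hs, Finset.mem_product, Finset.mem_filter, Finset.mem_univ, true_and] at hx'
      exact Kn_conj r h2 hv hx'.1 hx hx'.2
    · intro x z hxz
      have e1 : x.1.1 = z.1.1 := by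
        have := congrArg Subtype.val hxz
        exact mul_left_cancel this
      have hx' := x.2
      have hz' := z.2
      simp only [Finset.mem_filter] at hx' hz'
      have e2 := hx'.2.trans hz'.2.symm
      rw [e1] at e2
      exact Subtype.ext (Prod.ext e1 (mul_left_cancel (mul_right_cancel e2)))
  have h1 := Finset.card_le_mul_card_image (f := fun x : G × G => x.1 * x.2 * x.1⁻¹) s
    (Nat.card (Stab r v)) hfib
  rw [hcs] at h1
  refine h1.trans (Nat.mul_le_mul_left _ ?_)
  rw [Nat.card_eq_fintype_card, Fintype.card_subtype]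
  refine Finset.card_le_card fun y hy => ?_
  obtain ⟨⟨h, n⟩, hx, rfl⟩ := Finset.mem_image.1 hy
  simp only [hs, Finset.mem_product, Finset.mem_filter, Finset.mem_univ, true_and] at hx
  simp only [Finset.mem_filter, Finset.mem_univ, true_and]
  change (r (h * n * h⁻¹)).trace ^ 2 = 4 * (r (h * n * h⁻¹)).det
  rw [trace_conj, det_conj]
  exact (Kn_spec r h2 hv hx).2

/-- Main statement on groups: all elements with `t ^ 2 = 4 det` are scalar. -/
theorem scalar_of_few (h2 : (2 : k) ≠ 0) (hT : ∀ g, TypG (r g))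
    (hN : 16 * Nat.card (NN r) < Nat.card G) {u : G} (hu : u ∈ NN r) : Scl (r u) := by
  by_contra hsc
  -- an eigenvector
  set x := r u with hx
  set c := x.trace / 2 with hc
  have hch : (x - c • 1) * (x - c • 1) = 0 := by
    have hu' : x.trace ^ 2 = 4 * x.det := hu
    have ht : x.trace = 2 * c := by rw [hc]; field_simp
    have hd : x.det = c ^ 2 := by
      rw [ht] at hu'
      have h4 : (4 : k) ≠ 0 := by
        rw [show (4 : k) = 2 * 2 by norm_num]
        exact mul_ne_zero h2 h2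
      apply mul_left_cancel₀ h4
      linear_combination -hu'
    rw [Matrix.trace_fin_two] at ht
    rw [Matrix.det_fin_two] at hd
    ext i j
    fin_cases i <;> fin_cases j <;>
      simp [Matrix.mul_apply, Fin.sum_univ_two]
    · linear_combination x 0 0 * ht - hd
    · linear_combination x 0 1 * ht
    · linear_combination x 1 0 * ht
    · linear_combination x 1 1 * ht - hd
  obtain ⟨v, hv, hv2⟩ : ∃ v : Fin 2 → k, v ≠ 0 ∧ x *ᵥ v = c • v := by
    have hne : x - c • 1 ≠ 0 := fun h => hsc ⟨c, sub_eq_zero.1 h⟩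
    obtain ⟨j, hj⟩ : ∃ j, (x - c • 1) *ᵥ (Pi.single j 1) ≠ 0 := by
      by_contra hcon
      push Not at hcon
      apply hne
      ext i j
      have := congrFun (hcon j) i
      simpa using this
    refine ⟨_, hj, ?_⟩
    have : (x - c • 1) *ᵥ ((x - c • 1) *ᵥ (Pi.single j 1)) = 0 := by
      rw [Matrix.mulVec_mulVec, hch, Matrix.zero_mulVec]
    rw [Matrix.sub_mulVec (x) (c • 1), Matrix.smul_mulVec, Matrix.one_mulVec, sub_eq_zero] at this
    exact this
  have hS : u ∈ Stab r v := ⟨c, hv2⟩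
  have hk : (⟨u, hS⟩ : Stab r v) ∈ (psiU r hv).ker := by
    rw [mem_ker]
    have h1 : cc r v ⟨u, hS⟩ = c := by
      apply smul_inj hv
      rw [← cc_spec, ← hv2]
    rw [h1]
    have hu' : x.trace ^ 2 = 4 * x.det := hu
    have ht : x.trace = 2 * c := by rw [hc]; field_simp
    rw [ht] at hu'
    have h4 : (4 : k) ≠ 0 := by
      rw [show (4 : k) = 2 * 2 by norm_num]
      exact mul_ne_zero h2 h2
    apply mul_left_cancel₀ h4
    linear_combination hu'
  have k1 := card_ker_le r hv hk hsc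
  have k2 := card_stab_le r hT hv
  have k3 := count r h2 hv
  have hpos : 0 < Nat.card (Kn r hv) := by
    have : Nonempty (Kn r hv) := ⟨⟨u, ⟨hS, hk⟩, hsc⟩⟩
    exact Nat.card_pos
  have k4 : Nat.card G * Nat.card (Kn r hv) ≤ 16 * Nat.card (Kn r hv) * Nat.card (NN r) := by
    refine k3.trans (Nat.mul_le_mul_right _ ?_)
    omega
  have k5 : Nat.card G ≤ 16 * Nat.card (NN r) := by
    refine Nat.le_of_mul_le_mul_right ?_ hpos
    calc Nat.card G * Nat.card (Kn r hv) ≤ 16 * Nat.card (Kn r hv) * Nat.card (NN r) := k4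
      _ = 16 * Nat.card (NN r) * Nat.card (Kn r hv) := by ring
  omega

/-- The order is prime to the characteristic. -/
theorem card_ne_zero (h2 : (2 : k) ≠ 0) (hT : ∀ g, TypG (r g))
    (hN : 16 * Nat.card (NN r) < Nat.card G) (hr : Function.Injective r) :
    ((Nat.card G : ℕ) : k) ≠ 0 := by
  intro h0
  obtain ⟨ℓ, hℓ⟩ := CharP.exists k
  have hpos : 0 < Nat.card G := Nat.card_pos
  have hdvd : ℓ ∣ Nat.card G := (CharP.cast_eq_zero_iff k ℓ _).1 h0
  have hℓ0 : ℓ ≠ 0 := by
    rintro rfl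
    exact hpos.ne' (zero_dvd_iff.1 hdvd)
  have hp : ℓ.Prime := (CharP.char_is_prime_or_zero k ℓ).resolve_right hℓ0
  have : Fact ℓ.Prime := ⟨hp⟩
  obtain ⟨u, hu⟩ := exists_prime_orderOf_dvd_card' ℓ hdvd
  have hpow : r u ^ ℓ = 1 := by rw [← map_pow, ← hu, pow_orderOf_eq_one, map_one]
  have hCP : CharP (Matrix (Fin 2) (Fin 2) k) ℓ := inferInstance
  have hnil : (r u - 1) ^ ℓ = 0 := by
    have h1 : Commute (r u) 1 := Commute.one_right _
    rw [sub_pow_char_of_commute _ h1, hpow, one_pow, sub_self]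
  have htr : (r u).trace = 2 := by
    have h1 : IsNilpotent ((r u - 1).trace) :=
      Matrix.isNilpotent_trace_of_isNilpotent ⟨ℓ, hnil⟩
    have h3 := h1.eq_zero
    rw [Matrix.trace_sub, Matrix.trace_one, Fintype.card_fin, sub_eq_zero] at h3
    rw [h3]
    norm_num
  have hdet : (r u).det = 1 := by
    have h1 : ((r u).det - 1) ^ ℓ = 0 := by
      rw [sub_pow_char, one_pow, ← Matrix.det_pow, hpow, Matrix.det_one, sub_self]
    exact sub_eq_zero.1 (pow_eq_zero_iff hℓ0 |>.1 h1)
  obtain ⟨c, hc⟩ := scalar_of_few r h2 hT hN (u := u) (by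
    change (r u).trace ^ 2 = 4 * (r u).det
    rw [htr, hdet]
    norm_num)
  have hc1 : c = 1 := by
    rw [hc, Matrix.trace_smul, Matrix.trace_one, Fintype.card_fin, smul_eq_mul] at htr
    have : c * 2 = 1 * 2 := by
      push_cast at htr
      rw [htr, one_mul]
    exact mul_right_cancel₀ h2 this
  rw [hc1, one_smul, ← map_one r] at hc
  have hu1 := hr hc
  rw [hu1, orderOf_one] at hu
  exact hp.one_lt.ne hu

end Pool.Agent.H70B
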