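import Mathlib

/-! Finite groups of `2 × 2` matrices with traces and determinants of icosahedral type. -/

set_option autoImplicit false

noncomputable section

namespace Pool.Agent.H70B

open Matrix

variable {k : Type} [Field k] {G : Type} [Group G] (r : G →* Matrix (Fin 2) (Fin 2) k)

/-- The type of an element. -/
def TypG (x : Matrix (Fin 2) (Fin 2) k) : Prop :=
  x.trace = 0 ∨ x.trace ^ 2 = x.det ∨ x.trace ^ 2 = 4 * x.det ∨
    ∃ b, b ^ 2 - 3 * b + 1 = 0 ∧ x.trace ^ 2 = b * x.det

lemma r_mul_inv (g : G) : r g * r g⁻¹ = 1 := by rw [← map_mul, mul_inv_cancel, map_one]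

lemma r_inv_mul (g : G) : r g⁻¹ * r g = 1 := by rw [← map_mul, inv_mul_cancel, map_one]

lemma det_ne (g : G) : (r g).det ≠ 0 := by
  intro h
  have := congrArg Matrix.det (r_mul_inv r g)
  rw [Matrix.det_mul, h, zero_mul, Matrix.det_one] at this
  exact zero_ne_one this

/-- Cayley-Hamilton on a vector. -/
lemma ch_vec (x : Matrix (Fin 2) (Fin 2) k) (v : Fin 2 → k) :
    x *ᵥ (x *ᵥ v) = x.trace • (x *ᵥ v) - x.det • v := by
  ext i
  fin_cases i <;>
    simp [Matrix.mulVec, dotProduct, Fin.sum_univ_succ, Matrix.trace, Matrix.det_fin_two] <;> ring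

lemma eig_root {x : Matrix (Fin 2) (Fin 2) k} {v : Fin 2 → k} (hv : v ≠ 0) {c : k}
    (hc : x *ᵥ v = c • v) : c ^ 2 = x.trace * c - x.det := by
  have h := ch_vec x v
  rw [hc, Matrix.mulVec_smul, hc, smul_smul, smul_smul, ← sub_smul] at h
  obtain ⟨i, hi⟩ := Function.ne_iff.1 hv
  have := congrFun h i
  simp only [Pi.smul_apply, smul_eq_mul, Pi.zero_apply] at this hi
  have := mul_right_cancel₀ hi this
  linear_combination this

/-- If two non-proportional vectors are eigenvectors of the same eigenvalue then the matrix is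
scalar. -/
lemma scalar_of_two {x : Matrix (Fin 2) (Fin 2) k} {v w : Fin 2 → k} {c : k}
    (hv : x *ᵥ v = c • v) (hw : x *ᵥ w = c • w) (hd : v 0 * w 1 - v 1 * w 0 ≠ 0) :
    x = c • 1 := by
  have e : (x - c • 1) * !![v 0, w 0; v 1, w 1] = 0 := by
    have h1 := congrFun hv 0
    have h2 := congrFun hw 0
    have h3 := congrFun hv 1
    have h4 := congrFun hw 1
    simp only [Matrix.mulVec, dotProduct, Fin.sum_univ_two, Pi.smul_apply, smul_eq_mul] at h1 h2 h3 h4
    ext i j
    fin_cases i <;> fin_cases j <;>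
      simp [Matrix.mul_apply, Fin.sum_univ_two]
    · linear_combination h1
    · linear_combination h2
    · linear_combination h3
    · linear_combination h4
  have hu : IsUnit (!![v 0, w 0; v 1, w 1] : Matrix (Fin 2) (Fin 2) k) := by
    rw [Matrix.isUnit_iff_isUnit_det, Matrix.det_fin_two_of]
    refine isUnit_iff_ne_zero.2 ?_
    intro h
    apply hd
    linear_combination h
  have := (hu.mul_left_eq_zero).1 e
  exact sub_eq_zero.1 this

/-- Proportional vectors. -/
lemma prop_of_det {v w : Fin 2 → k} (hv : v ≠ 0) (hd : v 0 * w 1 - v 1 * w 0 = 0) :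
    ∃ a : k, w = a • v := by
  by_cases h0 : v 0 = 0
  · have h1 : v 1 ≠ 0 := by
      intro h1
      apply hv
      ext i
      fin_cases i
      · exact h0
      · exact h1
    refine ⟨w 1 / v 1, ?_⟩
    ext i
    fin_cases i
    · simp only [Fin.zero_eta, Pi.smul_apply, smul_eq_mul, h0, mul_zero]
      rw [h0, zero_mul, zero_sub, neg_eq_zero] at hd
      exact (mul_eq_zero.1 hd).resolve_left h1
    · simp [h1]
  · refine ⟨w 0 / v 0, ?_⟩
    ext i
    fin_cases i
    · simp [h0]
    · simp only [Fin.mk_one, Pi.smul_apply, smul_eq_mul]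
      field_simp
      linear_combination hd

/-- The stabilizer of the line of `v`. -/
def Stab (v : Fin 2 → k) : Subgroup G where
  carrier := {g | ∃ c : k, r g *ᵥ v = c • v}
  one_mem' := ⟨1, by rw [map_one, Matrix.one_mulVec, one_smul]⟩
  mul_mem' := by
    rintro g h ⟨c, hc⟩ ⟨d, hd⟩
    exact ⟨d * c, by rw [map_mul, ← Matrix.mulVec_mulVec, hd, Matrix.mulVec_smul, hc, smul_smul]⟩
  inv_mem' := by
    rintro g ⟨c, hc⟩
    refine ⟨c⁻¹, ?_⟩
    have h1 : r g⁻¹ *ᵥ (r g *ᵥ v) = v := by
      rw [Matrix.mulVec_mulVec, r_inv_mul, Matrix.one_mulVec]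
    rw [hc, Matrix.mulVec_smul] at h1
    by_cases h0 : c = 0
    · rw [h0, zero_smul] at h1
      rw [← h1, Matrix.mulVec_zero, smul_zero]
    · rw [eq_inv_smul_iff₀ h0, h1]

lemma mem_Stab {v : Fin 2 → k} {g : G} : g ∈ Stab r v ↔ ∃ c : k, r g *ᵥ v = c • v := Iff.rfl

/-- The eigenvalue on `v`. -/
def cc (v : Fin 2 → k) (g : Stab r v) : k := g.2.choose

lemma cc_spec (v : Fin 2 → k) (g : Stab r v) : r g *ᵥ v = cc r v g • v := g.2.choose_spec

lemma smul_inj {v : Fin 2 → k} (hv : v ≠ 0) {c d : k} (h : c • v = d • v) : c = d := by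
  obtain ⟨i, hi⟩ := Function.ne_iff.1 hv
  exact mul_right_cancel₀ hi (by simpa using congrFun h i)

lemma cc_one {v : Fin 2 → k} (hv : v ≠ 0) : cc r v 1 = 1 := by
  apply smul_inj hv
  rw [← cc_spec, OneMemClass.coe_one, map_one, Matrix.one_mulVec, one_smul]

lemma cc_mul {v : Fin 2 → k} (hv : v ≠ 0) (g h : Stab r v) :
    cc r v (g * h) = cc r v g * cc r v h := by
  apply smul_inj hv
  rw [← cc_spec, Subgroup.coe_mul, map_mul, ← Matrix.mulVec_mulVec, cc_spec, Matrix.mulVec_smul,
    cc_spec, smul_smul, mul_comm]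

/-- The ratio character. -/
def psi {v : Fin 2 → k} (hv : v ≠ 0) : Stab r v →* k where
  toFun g := cc r v g ^ 2 / (r g).det
  map_one' := by
    rw [cc_one r hv, OneMemClass.coe_one, map_one, Matrix.det_one, one_pow, div_one]
  map_mul' g h := by
    rw [cc_mul r hv, Subgroup.coe_mul, map_mul, Matrix.det_mul, mul_pow]
    field_simp [det_ne r (g : G), det_ne r (h : G)]

lemma psi_apply {v : Fin 2 → k} (hv : v ≠ 0) (g : Stab r v) :
    psi r hv g = cc r v g ^ 2 / (r g).det := rfl

/-- The kernel of the ratio character. -/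
def Ker {v : Fin 2 → k} (hv : v ≠ 0) : Subgroup (Stab r v) := (psi r hv).ker

lemma cc_ne {v : Fin 2 → k} (hv : v ≠ 0) (g : Stab r v) : cc r v g ≠ 0 := by
  intro h
  have := cc_mul r hv g g⁻¹
  rw [mul_inv_cancel, cc_one r hv, h, zero_mul] at this
  exact one_ne_zero this

/-- The values of the ratio character. -/
lemma psi_values (hT : ∀ g, TypG (r g)) {v : Fin 2 → k} (hv : v ≠ 0)
    (g : Stab r v) :
    (psi r hv g + 1) * (psi r hv g - 1) * (psi r hv g ^ 2 + psi r hv g + 1) *
      (psi r hv g ^ 4 + psi r hv g ^ 3 + psi r hv g ^ 2 + psi r hv g + 1) = 0 := by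
  have hc := cc_ne r hv g
  have hd := det_ne r (g : G)
  have hr := eig_root hv (cc_spec r v g)
  rw [psi_apply]
  set c := cc r v g
  set t := (r g).trace
  set d := (r g).det
  have ht : t = (c ^ 2 + d) / c := by
    field_simp
    linear_combination -hr
  have key : ∀ b : k, t ^ 2 = b * d → (c ^ 2 / d + 1) ^ 2 = b * (c ^ 2 / d) := by
    intro b hb
    rw [ht] at hb
    field_simp at hb ⊢
    linear_combination hb
  rcases hT g with h | h | h | ⟨b, hb, h⟩
  · have := key 0 (by rw [show t = 0 from h]; ring)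
    rw [zero_mul] at this
    rw [pow_eq_zero_iff two_ne_zero |>.1 this]
    ring
  · have := key 1 (by rw [one_mul]; exact h)
    have h1 : (c ^ 2 / d) ^ 2 + c ^ 2 / d + 1 = 0 := by linear_combination this
    rw [h1]
    ring
  · have := key 4 h
    have h1 : (c ^ 2 / d - 1) ^ 2 = 0 := by linear_combination this
    rw [pow_eq_zero_iff two_ne_zero |>.1 h1]
    ring
  · have := key b h
    set y := c ^ 2 / d
    have h1 : (y ^ 4 + y ^ 3 + y ^ 2 + y + 1) * 1 = 0 := by
      have e1 : y ^ 2 * (b ^ 2 - 3 * b + 1) = 0 := by rw [hb, mul_zero]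
      linear_combination e1 + ((y + 1) ^ 2 + b * y - 3 * y) * this
    rw [mul_one] at h1
    rw [h1, mul_zero]

/-- The ratio character with values in the units. -/
def psiU {v : Fin 2 → k} (hv : v ≠ 0) : Stab r v →* kˣ := (psi r hv).toHomUnits

lemma psiU_val {v : Fin 2 → k} (hv : v ≠ 0) (g : Stab r v) :
    ((psiU r hv g : kˣ) : k) = psi r hv g := rfl

open Polynomial in
/-- The polynomial which has the values of the ratio character as roots. -/
def pol8 (k : Type) [Field k] : k[X] :=
  (X + C 1) * (X - C 1) * (X ^ 2 + X + C 1) * (X ^ 4 + X ^ 3 + X ^ 2 + X + C 1)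

open Polynomial in
lemma pol8_deg : (pol8 k).natDegree = 8 := by
  unfold pol8
  compute_degree!

open Polynomial in
lemma pol8_ne : pol8 k ≠ 0 := by
  intro h
  have := pol8_deg (k := k)
  rw [h, natDegree_zero] at this
  omega

open Polynomial in
lemma card_range_le (hT : ∀ g, TypG (r g)) {v : Fin 2 → k} (hv : v ≠ 0) :
    Nat.card (psiU r hv).range ≤ 8 := by
  classical
  have hroot : ∀ y : (psiU r hv).range, ((y : kˣ) : k) ∈ (pol8 k).roots.toFinset := by
    rintro ⟨y, g, rfl⟩
    rw [Multiset.mem_toFinset, mem_roots pol8_ne, IsRoot.def]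
    have := psi_values r hT hv g
    unfold pol8
    simp only [eval_mul, eval_add, eval_sub, eval_pow, eval_X, eval_C]
    exact this
  have hinj : Function.Injective (fun y : (psiU r hv).range =>
      (⟨((y : kˣ) : k), hroot y⟩ : (pol8 k).roots.toFinset)) := by
    intro y z h
    exact Subtype.ext (Units.ext (congrArg Subtype.val h))
  calc Nat.card (psiU r hv).range ≤ Nat.card ((pol8 k).roots.toFinset) :=
        Nat.card_le_card_of_injective _ hinj
    _ = (pol8 k).roots.toFinset.card := by rw [Nat.card_eq_fintype_card, Fintype.card_coe]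
    _ ≤ Multiset.card (pol8 k).roots := Multiset.toFinset_card_le _
    _ ≤ (pol8 k).natDegree := card_roots' _
    _ = 8 := pol8_deg

lemma card_stab_le (hT : ∀ g, TypG (r g)) {v : Fin 2 → k} (hv : v ≠ 0) :
    Nat.card (Stab r v) ≤ 8 * Nat.card (psiU r hv).ker := by
  rw [← Subgroup.card_mul_index (psiU r hv).ker, Subgroup.index_ker, mul_comm]
  exact Nat.mul_le_mul_right _ (card_range_le r hT hv)

/-- The scalars. -/
def Scl (x : Matrix (Fin 2) (Fin 2) k) : Prop := ∃ c : k, x = c • 1

/-- The subgroup of the scalars. -/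
def ZB (v : Fin 2 → k) : Subgroup (Stab r v) where
  carrier := {g | Scl (r (g : G))}
  one_mem' := ⟨1, by rw [OneMemClass.coe_one, map_one, one_smul]⟩
  mul_mem' := by
    rintro g h ⟨c, hc⟩ ⟨d, hd⟩
    exact ⟨c * d, by rw [Subgroup.coe_mul, map_mul, hc, hd, smul_mul_smul_comm, one_mul]⟩
  inv_mem' := by
    rintro g ⟨c, hc⟩
    have h1 := r_mul_inv r (g : G)
    rw [hc, smul_mul_assoc, one_mul] at h1
    have h0 : c ≠ 0 := by
      rintro rfl
      rw [zero_smul] at h1
      have := congrFun (congrFun h1 0) 0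
      simp at this
    exact ⟨c⁻¹, by rw [InvMemClass.coe_inv, eq_inv_smul_iff₀ h0, h1]⟩

lemma mem_ZB {v : Fin 2 → k} {g : Stab r v} : g ∈ ZB r v ↔ Scl (r (g : G)) := Iff.rfl

lemma mem_ker {v : Fin 2 → k} (hv : v ≠ 0) (g : Stab r v) :
    g ∈ (psiU r hv).ker ↔ cc r v g ^ 2 = (r (g : G)).det := by
  rw [MonoidHom.mem_ker, ← Units.val_inj, psiU_val, Units.val_one, psi_apply,
    div_eq_one_iff_eq (det_ne r (g : G))]

lemma ZB_le {v : Fin 2 → k} (hv : v ≠ 0) : ZB r v ≤ (psiU r hv).ker := by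
  rintro g ⟨c, hc⟩
  rw [mem_ker]
  have h1 : cc r v g = c := by
    apply smul_inj hv
    rw [← cc_spec, hc, Matrix.smul_mulVec, Matrix.one_mulVec]
  rw [h1, hc, Matrix.det_smul, Matrix.det_one, mul_one, Fintype.card_fin]

variable [Finite G]

lemma two_card_ZB {v : Fin 2 → k} (hv : v ≠ 0) {u : Stab r v} (hu : u ∈ (psiU r hv).ker)
    (hs : ¬ Scl (r (u : G))) : 2 * Nat.card (ZB r v) ≤ Nat.card (psiU r hv).ker := by
  have h1 := Subgroup.card_dvd_of_le (ZB_le r hv)
  obtain ⟨c, hc⟩ := h1
  have h2 : c ≠ 0 := by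
    rintro rfl
    rw [mul_zero] at hc
    exact Nat.card_pos.ne' hc
  have h3 : c ≠ 1 := by
    rintro rfl
    rw [mul_one] at hc
    have := Subgroup.eq_of_le_of_card_ge (ZB_le r hv) hc.le
    rw [← this] at hu
    exact hs hu
  rw [hc, mul_comm]
  exact Nat.mul_le_mul_left _ (by omega)

end Pool.Agent.H70B
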