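import Mathlib

/-! Lifting representations of finite groups of invertible order along square zero extensions:
the average of `s (g h) (s h)⁻¹`. -/

set_option autoImplicit false

noncomputable section

namespace Pool.Agent.H70B

/-- Square zero extensions reflect units. -/
lemma isUnit_of_sq_zero {A B : Type} [CommRing A] [CommRing B] (f : A →+* B)
    (hf : Function.Surjective f) (h0 : ∀ x y, f x = 0 → f y = 0 → x * y = 0) {x : A}
    (hx : IsUnit (f x)) : IsUnit x := by
  obtain ⟨u, hu⟩ := hx
  obtain ⟨y, hy⟩ := hf (↑u⁻¹ : B)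
  have h1 : f (x * y - 1) = 0 := by
    rw [map_sub, map_mul, map_one, hy, ← hu, Units.mul_inv, sub_self]
  have h2 := h0 _ _ h1 h1
  refine IsUnit.of_mul_eq_one (y * (2 - x * y)) ?_
  linear_combination -h2

theorem exists_lift_sq_zero {A B G : Type} [CommRing A] [CommRing B] [Group G] [Finite G]
    (f : A →+* B) (hf : Function.Surjective f) (h0 : ∀ x y, f x = 0 → f y = 0 → x * y = 0)
    (hG : IsUnit ((Nat.card G : ℕ) : A)) {n : ℕ} (ρ : G →* Matrix (Fin n) (Fin n) B) :
    ∃ ρ' : G →* Matrix (Fin n) (Fin n) A, ∀ g, (ρ' g).map f = ρ g := by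
  classical
  have := Fintype.ofFinite G
  obtain ⟨c, hc⟩ := hG
  -- lifts of the matrices
  have hs : ∀ g, ∃ s : Matrix (Fin n) (Fin n) A, s.map f = ρ g := by
    intro g
    choose s hs using fun i j => hf (ρ g i j)
    refine ⟨Matrix.of s, ?_⟩
    ext i j
    exact hs i j
  choose s hs using hs
  have hunit : ∀ g, IsUnit (s g).det := by
    intro g
    refine isUnit_of_sq_zero f hf h0 ?_
    rw [RingHom.map_det]
    have : f.mapMatrix (s g) = ρ g := hs g
    rw [this]
    have h1 : IsUnit (ρ g) := (Group.isUnit g).map ρ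
    exact (Matrix.isUnit_iff_isUnit_det _).1 h1
  have hmul : ∀ g, s g * (s g)⁻¹ = 1 := fun g => Matrix.mul_nonsing_inv _ (hunit g)
  have hmul' : ∀ g, (s g)⁻¹ * s g = 1 := fun g => Matrix.nonsing_inv_mul _ (hunit g)
  have hinv : ∀ g, ((s g)⁻¹).map f = ρ g⁻¹ := by
    intro g
    have h1 : f.mapMatrix ((s g)⁻¹) * ρ g = 1 := by
      have : f.mapMatrix (s g) = ρ g := hs g
      rw [← this, ← map_mul, hmul', map_one]
    have h2 : ρ g * ρ g⁻¹ = 1 := by rw [← map_mul, mul_inv_cancel, map_one]
    calc ((s g)⁻¹).map f = f.mapMatrix ((s g)⁻¹) * (ρ g * ρ g⁻¹) := by rw [h2, mul_one]; rfl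
      _ = ρ g⁻¹ := by rw [← mul_assoc, h1, one_mul]
  obtain ⟨X, hX⟩ : ∃ X : G → G → Matrix (Fin n) (Fin n) A,
      X = fun g u => s (g * u) * (s u)⁻¹ := ⟨_, rfl⟩
  have hXf : ∀ g u, f.mapMatrix (X g u) = ρ g := by
    intro g u
    have h1 : f.mapMatrix (s (g * u)) = ρ (g * u) := hs _
    have h2 : f.mapMatrix ((s u)⁻¹) = ρ u⁻¹ := hinv u
    rw [hX]
    simp only
    rw [map_mul, h1, h2, ← map_mul, mul_inv_cancel_right]
  obtain ⟨T, hT⟩ : ∃ T : G → Matrix (Fin n) (Fin n) A,
      T = fun g => (↑c⁻¹ : A) • ∑ h, X g h := ⟨_, rfl⟩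
  have hcard : (c : A) = ((Fintype.card G : ℕ) : A) := by rw [hc, Nat.card_eq_fintype_card]
  have hcT : ∀ g, (c : A) • T g = ∑ h, X g h := by
    intro g
    rw [hT]
    simp only
    rw [smul_smul, Units.mul_inv, one_smul]
  have hTf : ∀ g, f.mapMatrix (T g) = ρ g := by
    intro g
    have h1 : f.mapMatrix ((c : A) • T g) = f c • f.mapMatrix (T g) := by
      ext i j
      simp
    have h2 : f.mapMatrix ((c : A) • T g) = f c • ρ g := by
      rw [hcT, map_sum]
      simp only [hXf]
      rw [Finset.sum_const, Finset.card_univ, hcard, map_natCast, Nat.cast_smul_eq_nsmul]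
    rw [h2] at h1
    have h3 : f (↑c⁻¹ : A) * f c = 1 := by rw [← map_mul, Units.inv_mul, map_one]
    have h4 := congrArg (fun M => f (↑c⁻¹ : A) • M) h1
    simp only [smul_smul, h3, one_smul] at h4
    exact h4.symm
  -- products of two matrices in the kernel vanish
  have hprod : ∀ P Q : Matrix (Fin n) (Fin n) A, f.mapMatrix P = 0 → f.mapMatrix Q = 0 →
      P * Q = 0 := by
    intro P Q hP hQ
    ext i j
    rw [Matrix.mul_apply, Matrix.zero_apply]
    refine Finset.sum_eq_zero fun l _ => h0 _ _ ?_ ?_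
    · exact congrFun (congrFun hP i) l
    · exact congrFun (congrFun hQ l) j
  have hTmul : ∀ g g', T (g * g') = T g * T g' := by
    intro g g'
    have h1 : ∑ h, X (g * g') h = ∑ h, X g (g' * h) * X g' h := by
      refine Finset.sum_congr rfl fun h _ => ?_
      rw [hX]
      simp only
      rw [mul_assoc (s (g * (g' * h))), ← mul_assoc (s (g' * h))⁻¹, hmul', one_mul, mul_assoc g]
    have h2 : ∀ h, X g (g' * h) * X g' h = T g * X g' h + X g (g' * h) * T g' - T g * T g' := by
      intro h
      have h3 := hprod (X g (g' * h) - T g) (X g' h - T g')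
        (by rw [map_sub, hXf, hTf, sub_self]) (by rw [map_sub, hXf, hTf, sub_self])
      have h4 : X g (g' * h) * X g' h - (T g * X g' h + X g (g' * h) * T g' - T g * T g') =
          (X g (g' * h) - T g) * (X g' h - T g') := by noncomm_ring
      rw [h3] at h4
      exact sub_eq_zero.1 h4
    have h5 : ∑ h, X g (g' * h) = (c : A) • T g := by
      rw [hcT]
      exact Equiv.sum_comp (Equiv.mulLeft g') (fun h => X g h)
    have h6 : (c : A) • T (g * g') = (c : A) • (T g * T g') := by
      rw [hcT, h1]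
      simp only [h2]
      rw [Finset.sum_sub_distrib, Finset.sum_add_distrib, ← Finset.mul_sum, ← hcT, ← Finset.sum_mul,
        h5, Finset.sum_const, Finset.card_univ, ← Nat.cast_smul_eq_nsmul A, ← hcard,
        mul_smul_comm, smul_mul_assoc, add_sub_cancel_right]
    have h7 := congrArg (fun M => (↑c⁻¹ : A) • M) h6
    simpa only [smul_smul, Units.inv_mul, one_smul] using h7
  have hT1 : T 1 = 1 := by
    have h1 : (c : A) • T 1 = (c : A) • (1 : Matrix (Fin n) (Fin n) A) := by
      rw [hcT]
      have : ∀ h, X 1 h = 1 := fun h => by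
        rw [hX]
        simp only
        rw [one_mul, hmul]
      simp only [this]
      rw [Finset.sum_const, Finset.card_univ, ← Nat.cast_smul_eq_nsmul A, ← hcard]
    have h7 := congrArg (fun M => (↑c⁻¹ : A) • M) h1
    simpa only [smul_smul, Units.inv_mul, one_smul] using h7
  exact ⟨{ toFun := T, map_one' := hT1, map_mul' := hTmul }, hTf⟩

end Pool.Agent.H70B
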