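import Pool.Agent.W_7742h_h74.HOne

/-! # One representation of degree two modulo one ideal of large norm: full characteristic polynomials

`motive_of_large`: the lift of the traces (`Pool.Agent.PsJ74.main_p`) is a lift for *all* elements of the
Galois group, so also for `F p ^ 2`, whose trace is `a p ^ 2 - 2 * w p` modulo the ideal; this number has
small conjugates, so it is the trace of `R (F p ^ 2)`, and `det R (F p)` is `w p`. -/

set_option autoImplicit false

noncomputable section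

open Filter Topology

namespace Pool.Agent.H70B

open NumberField Height
open Pool.Agent.OneM74 Pool.Agent.GalSide Pool.Agent.OneP74 Pool.Agent.OneI74 Pool.Agent.OneN74
open Pool.Agent.GL74 Pool.Agent.GLForm74 Pool.Agent.PsC74
open Pool.Agent.Crit74 (dens_mono dens_union dens_level map_trace' cusp_logBound exists_Q
  mean_of_dens mean_mono GLmap_val GLmap_ker YY_ineq mean_of_rep)
open Pool.Agent.Cheb
open Pool.Agent.OneJ74 (YY)

/-- The trace of the square of a `2 × 2` matrix. -/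
theorem trace_sq {A : Type} [CommRing A] (M : Matrix (Fin 2) (Fin 2) A) :
    (M * M).trace = M.trace ^ 2 - 2 * M.det := by
  rw [Matrix.trace_fin_two, Matrix.trace_fin_two, Matrix.det_fin_two]
  simp only [Matrix.mul_apply, Fin.sum_univ_two]
  ring

/-- A `2 × 2` matrix over a field of characteristic zero with given traces of itself and its square. -/
theorem charpoly_two {M : Matrix (Fin 2) (Fin 2) ℂ} {a w : ℂ} (h1 : M.trace = a)
    (h2 : (M * M).trace = a ^ 2 - 2 * w) :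
    M.charpoly = Polynomial.X ^ 2 - Polynomial.C a * Polynomial.X + Polynomial.C w := by
  have h3 : M.det = w := by
    rw [trace_sq, h1] at h2
    have h4 : (2 : ℂ) * M.det = 2 * w := by linear_combination -h2
    exact mul_left_cancel₀ two_ne_zero h4
  rw [Matrix.charpoly_fin_two, h1, h3]

/-- The embedding of `a ^ 2 - 2 * w`. -/
theorem coe_sq {K : Type} [Field K] [NumberField K] (a w : 𝓞 K) :
    ((a ^ 2 - 2 * w : 𝓞 K) : K) = (a : K) ^ 2 - 2 * (w : K) := by
  change algebraMap (𝓞 K) K (a ^ 2 - 2 * w) = _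
  rw [map_sub, map_pow, map_mul, map_ofNat]

/-- One representation of degree two modulo one ideal of large norm. -/
theorem motive_of_large {K : Type} [Field K] [NumberField K] (a w : Nat.Primes → 𝓞 K) (τ : K →+* ℂ)
    (I : Ideal (𝓞 K)) (hI : 4 ^ (15 * Module.finrank ℚ K) ≤ Ideal.absNorm I)
    (F : Nat.Primes → GQ) (hF : IsFrobeniusChoice F) (X : Set Nat.Primes) (hX : DensityZero X)
    (ρ : GQ →* GL (Fin 2) (𝓞 K ⧸ I)) (hρ : IsOpen (ρ.ker : Set GQ))
    (hρF : ∀ p, p ∉ X → (ρ (F p)).val.trace = Ideal.Quotient.mk _ (a p) ∧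
      (ρ (F p)).val.det = Ideal.Quotient.mk _ (w p))
    (hs : ∀ p, p ∉ X → ∀ σ : K →+* ℂ, ‖σ (a p : K)‖ ≤ 2 ∧ ‖σ (w p : K)‖ = 1)
    (hm : MeanLE (Module.finrank ℚ K) (fun p => ∑ σ : K →+* ℂ, ‖σ (a p : K)‖ ^ 2)) :
    ∃ (E : Type) (_ : Field E) (_ : NumberField E) (i : E →+* ℂ) (R : GQ →* GL (Fin 2) E),
      IsAbsIrreducible R ∧ IsOpen (R.ker : Set GQ) ∧
      DensityZero {p : Nat.Primes | (R (F p)).val.charpoly.map i ≠
        Polynomial.X ^ 2 - Polynomial.C (τ (a p : K)) * Polynomial.X + Polynomial.C (τ (w p : K))} := by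
  classical
  have hn : 0 < 2 := by norm_num
  have hd0 : Module.finrank ℚ K ≠ 0 := (Module.finrank_pos (R := ℚ) (M := K)).ne'
  have hker : RingHom.ker (Ideal.Quotient.mk I) = I := Ideal.mk_ker
  have hι : (2 * 2) ^ (3 * (2 ^ 2 + 1) * Module.finrank ℚ K) ≤
      Ideal.absNorm (RingHom.ker (Ideal.Quotient.mk I)) := by
    rw [hker]
    exact hI
  have hY : YY 2 ^ Module.finrank ℚ K ≤ Ideal.absNorm (RingHom.ker (Ideal.Quotient.mk I)) := by
    refine le_trans (le_of_eq ?_) hι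
    unfold Pool.Agent.OneJ74.YY
    rw [← pow_mul]
  have hF' : Pool.Agent.OneP74.IsFrobeniusFamily F := hF
  choose 𝔓 h𝔓 hp𝔓 hFr using hF'
  obtain ⟨Φ, hΦ⟩ : ∃ Φ : FrobeniusData GQ, Φ.frob = F := ⟨frobeniusData 𝔓 h𝔓 hp𝔓 F hFr, rfl⟩
  obtain ⟨l1, l2⟩ := locConst_of_rep ρ hρ
  obtain ⟨W, hW, hWo, htW⟩ := exists_open_GQ l1
  obtain ⟨𝔟, β, hN, hc, hd, hR⟩ := Pool.Agent.PsJ74.main_p Φ a hm (Ideal.Quotient.mk I) hn hY l2.pt W
    hWo htW (by
      rw [hΦ]
      refine dens_mono hX fun p hp => ?_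
      by_contra hx
      exact hp (hρF p hx).1)
  obtain ⟨R, hRt, hRi⟩ := hR τ
  have hfin : Finite (GQ ⧸ W) := Subgroup.quotient_finite_of_isOpen W hWo
  let R' : GQ →* GL (Fin 2) ℂ := (R.comp (QuotientGroup.mk' W)).toHomUnits
  have hR' : ∀ g, (R' g).val = R (QuotientGroup.mk g) := fun g => rfl
  -- the square
  have key : ∀ p, p ∉ X → ((R' (F p)).val * (R' (F p)).val).trace =
      τ (a p : K) ^ 2 - 2 * τ (w p : K) := by
    intro p hp
    have e0 : (Ideal.Quotient.mk I) (a p ^ 2 - 2 * w p) = (ρ (F p * F p)).val.trace := by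
      rw [map_mul, Units.val_mul, trace_sq, (hρF p hp).1, (hρF p hp).2, map_sub, map_mul, map_pow,
        map_ofNat]
    have e1 := hc (F p * F p) (a p ^ 2 - 2 * w p) e0
    have e2 : (a p ^ 2 - 2 * w p) - β (QuotientGroup.mk (F p * F p)) = 0 := by
      refine eq_zero_of_small 𝔟 e1 (X := (2 * ((2 : ℕ) : ℝ)) ^ 2 ^ 2 + (2 : ℕ)) (fun σ => ?_) ?_
      · have e3 : (((a p ^ 2 - 2 * w p) - β (QuotientGroup.mk (F p * F p)) : 𝓞 K) : K) =
            ((a p : K) ^ 2 - 2 * (w p : K)) - (β (QuotientGroup.mk (F p * F p)) : K) := by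
          rw [← coe_sq]
          exact map_sub (algebraMap (𝓞 K) K) _ _
        rw [e3, map_sub]
        refine (norm_sub_le _ _).trans (add_le_add ?_ ?_)
        · obtain ⟨h1, h2⟩ := hs p hp σ
          have h3 : ‖σ ((a p : K) ^ 2 - 2 * (w p : K))‖ ≤ ‖σ (a p : K)‖ ^ 2 + 2 * ‖σ (w p : K)‖ := by
            rw [map_sub, map_pow, map_mul, map_ofNat]
            refine (norm_sub_le _ _).trans (le_of_eq ?_)
            rw [norm_pow, norm_mul, Complex.norm_ofNat]
          have h4 : ‖σ (a p : K)‖ ^ 2 ≤ 4 := by nlinarith [norm_nonneg (σ (a p : K))]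
          rw [h2] at h3
          refine h3.trans ?_
          norm_num
          linarith
        · obtain ⟨Rσ, hRσ, -⟩ := hR σ
          rw [← hRσ]
          refine norm_trace_le (m := Nat.card (GQ ⧸ W)) Nat.card_pos _ ?_
          rw [← map_pow, pow_card_eq_one', map_one]
      · exact small_lt hn hd0 hι hN
    rw [← Units.val_mul, ← map_mul, hR', hRt, ← sub_eq_zero.1 e2]
    rw [coe_sq, map_sub, map_pow, map_mul, map_ofNat]
  obtain ⟨E, i1, i2, i, S, hS1, hS2, -, hS4⟩ : HasMotive 2 F (fun _ => ∅) Set.univ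
      (fun g => (R' g).val.trace) := by
    refine motive_of_C hn ⟨R', fun W' hW' => ?_, ?_, ?_, fun g hg => rfl⟩
    · refine hRi W' fun g w hw => ?_
      obtain ⟨g, rfl⟩ := QuotientGroup.mk_surjective g
      exact hW' g w hw
    · refine Subgroup.isOpen_mono (H₁ := W) (fun g hg => MonoidHom.mem_ker.2 (Units.ext ?_)) hWo
      rw [hR', (QuotientGroup.eq_one_iff g).2 hg, map_one]
      rfl
    · refine dens_mono hX fun p hp => ?_
      exact absurd ⟨rfl, fun g hg => hg.elim⟩ hp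
  refine ⟨E, i1, i2, i, S, hS1, hS2, ?_⟩
  refine dens_union hd hX ?_
  intro p hp
  by_contra hcon
  rw [Set.mem_union, not_or] at hcon
  have e1 : a p = β (QuotientGroup.mk (F p)) := by
    rw [← hΦ]
    exact not_not.1 hcon.1
  have hS5 : ∀ g, ((S g).val.map i).trace = (R' g).val.trace := by
    intro g
    refine Eq.trans ?_ (hS4 g (Set.mem_univ _))
    rw [map_trace']
  refine hp ?_
  rw [← Matrix.charpoly_map]
  refine charpoly_two ?_ ?_
  · rw [hS5, hR', hRt, ← e1]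
  · have e3 : (S (F p)).val.map i * (S (F p)).val.map i = (S (F p * F p)).val.map i := by
      rw [map_mul, Units.val_mul, Matrix.map_mul]
    rw [e3, hS5, map_mul, Units.val_mul, key p hcon.2]

/-- The norm of the powers of a maximal ideal is not bounded. -/
theorem exists_norm_large {K : Type} [Field K] [NumberField K] (𝔩 : Ideal (𝓞 K)) [h𝔩 : 𝔩.IsMaximal]
    (h0 : 𝔩 ≠ ⊥) (B : ℕ) : ∃ j : ℕ, B ≤ Ideal.absNorm (𝔩 ^ (2 ^ j)) := by
  have h1 : 1 < Ideal.absNorm 𝔩 := by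
    have h2 : Ideal.absNorm 𝔩 ≠ 0 := by
      rw [Ne, Ideal.absNorm_eq_zero_iff]
      exact h0
    have h3 : Ideal.absNorm 𝔩 ≠ 1 := by
      rw [Ne, Ideal.absNorm_eq_one_iff]
      exact h𝔩.ne_top
    omega
  refine ⟨B, ?_⟩
  rw [map_pow]
  calc B ≤ 2 ^ B := Nat.lt_two_pow_self.le
    _ ≤ 2 ^ (2 ^ B) := Nat.pow_le_pow_right (by norm_num) Nat.lt_two_pow_self.le
    _ ≤ Ideal.absNorm 𝔩 ^ (2 ^ B) := Nat.pow_le_pow_left h1 _

/-- A tower of representations modulo the powers of a maximal ideal. -/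
theorem motive_of_lifts {K : Type} [Field K] [NumberField K] (a w : Nat.Primes → 𝓞 K) (τ : K →+* ℂ)
    (𝔩 : Ideal (𝓞 K)) [𝔩.IsMaximal] (h0 : 𝔩 ≠ ⊥) (F : Nat.Primes → GQ) (hF : IsFrobeniusChoice F)
    (X : Set Nat.Primes) (hX : DensityZero X)
    (hρ : ∀ j : ℕ, ∃ ρ : GQ →* GL (Fin 2) (𝓞 K ⧸ 𝔩 ^ (2 ^ j)), IsOpen (ρ.ker : Set GQ) ∧
      ∀ p, p ∉ X → (ρ (F p)).val.trace = Ideal.Quotient.mk _ (a p) ∧
        (ρ (F p)).val.det = Ideal.Quotient.mk _ (w p))
    (hs : ∀ p, p ∉ X → ∀ σ : K →+* ℂ, ‖σ (a p : K)‖ ≤ 2 ∧ ‖σ (w p : K)‖ = 1)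
    (hm : MeanLE (Module.finrank ℚ K) (fun p => ∑ σ : K →+* ℂ, ‖σ (a p : K)‖ ^ 2)) :
    ∃ (E : Type) (_ : Field E) (_ : NumberField E) (i : E →+* ℂ) (R : GQ →* GL (Fin 2) E),
      IsAbsIrreducible R ∧ IsOpen (R.ker : Set GQ) ∧
      DensityZero {p : Nat.Primes | (R (F p)).val.charpoly.map i ≠
        Polynomial.X ^ 2 - Polynomial.C (τ (a p : K)) * Polynomial.X +
          Polynomial.C (τ (w p : K))} := by
  obtain ⟨j, hj⟩ := exists_norm_large 𝔩 h0 (4 ^ (15 * Module.finrank ℚ K))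
  obtain ⟨ρ, hρo, hρF⟩ := hρ j
  exact motive_of_large a w τ _ hj F hF X hX ρ hρo hρF hs hm

end Pool.Agent.H70B
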