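import Pool.Agent.W_7742aa_h70.Sys
import Pool.Agent.W_7742h_h74.HSta

/-! Definitions for the statement of the one prime criterion. -/

set_option autoImplicit false

noncomputable section

namespace Pool.Agent.H70B

open NumberField Polynomial
open Pool.Agent.H70A
open Pool.Agent.PsC74 (GQ DensityZero IsAbsIrreducible)

/-- The polynomial `X ^ 2 - a * X + w`. -/
def quad {R : Type} [CommRing R] (a w : R) : R[X] := X ^ 2 - C a * X + C w

/-- The homomorphism `r` has open kernel, and for all primes `p` outside a set of density zero `p` is an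
element of `S` and the characteristic polynomial of `r (Frob p)` is `X ^ 2 - a p * X + w p`. -/
def IsAttached {A : Type} [CommRing A] (Frob : Nat.Primes → GQ)
    (r : GQ →* Matrix.GeneralLinearGroup (Fin 2) A) (a w : ℕ → A) (S : Set Nat.Primes) : Prop :=
  IsOpen (r.ker : Set GQ) ∧
    DensityZero {p : Nat.Primes | ¬ (p ∈ S ∧ (r (Frob p)).val.charpoly = quad (a p) (w p))}

/-- There are a natural number `k`, a maximal ideal `l` of `𝓞 K` which does not contain `30 * k`, and a
homomorphism `r` from `G_ℚ` to `GL₂(𝓞 K / l)` with open kernel such that for all primes `p` outside a set of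
density zero `w p ^ k = 1`, `a p ^ 2 = b p * w p`, and the characteristic polynomial of `r (Frob p)` is
`X ^ 2 - a p * X + w p` modulo `l`. -/
def HasRepMod {F K : Type} [Field F] [NumberField F] [Field K] [NumberField K] (π : AdjointSystem F)
    (ι : F →+* K) (Frob : Nat.Primes → GQ) (a w : ℕ → 𝓞 K) : Prop :=
  ∃ (k : ℕ) (l : Ideal (𝓞 K)), l.IsMaximal ∧ ((30 * k : ℕ) : 𝓞 K) ∉ l ∧
    ∃ r : GQ →* Matrix.GeneralLinearGroup (Fin 2) (𝓞 K ⧸ l),
      IsAttached Frob r (fun p => Ideal.Quotient.mk l (a p)) (fun p => Ideal.Quotient.mk l (w p))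
        {p : Nat.Primes | w p ^ k = 1 ∧ (a p : K) ^ 2 = ι (π.b p) * (w p : K)}

/-- There is an absolutely irreducible representation `R` of degree `2` of `G_ℚ` with open kernel over a
number field `E` in `ℂ` such that `X ^ 2 - a p * X + w p` is the characteristic polynomial of `R (Frob p)`
for all primes `p` outside a set of density zero. -/
def IsArtin (Frob : Nat.Primes → GQ) (a w : ℕ → ℂ) : Prop :=
  ∃ (E : Type) (_ : Field E) (_ : NumberField E) (i : E →+* ℂ)
    (R : GQ →* Matrix.GeneralLinearGroup (Fin 2) E),
    IsAbsIrreducible R ∧ IsOpen (R.ker : Set GQ) ∧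
    DensityZero {p : Nat.Primes | (R (Frob p)).val.charpoly.map i ≠ quad (a p) (w p)}

end Pool.Agent.H70B
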