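import Pool.Agent.W_7742ab_h70.Brg
import Pool.Agent.W_7742ab_h70.Mot
import Pool.Agent.W_7742ab_h70.Sta

/-! One representation modulo one maximal ideal suffices. -/

set_option autoImplicit false

noncomputable section

namespace Pool.Agent.H70B

open Filter Topology NumberField
open Pool.Agent.H70A Pool.Agent.PsC74
open Pool.Agent.H74V.SatakeSystem (DensityLE)
open Pool.Agent.GalSide (Chb_log Chb_gt Chb_mono Chb_union HasDensity FrobeniusData)
open Pool.Agent.Cheb (frobeniusData)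
open Pool.Agent.OneP74 (density_union')

variable {F : Type} [Field F] [NumberField F] {π : AdjointSystem F} {σ₁ σ₂ : F →+* ℂ}

lemma type_or_oth (h : AdjointSystem.Hyp π σ₁ σ₂) {p : ℕ} (hp : π.Good p) (ho : ¬ π.Oth p) :
    π.b p = 0 ∨ π.b p = 1 ∨ π.b p = 4 ∨ π.b p ^ 2 - 3 * π.b p + 1 = 0 := by
  rcases AdjointSystem.values h.hs h.hE hp with ⟨m, hm⟩ | h1
  · by_contra hcon
    push Not at hcon
    obtain ⟨c0, c1, c4, -⟩ := hcon
    refine ho ⟨hp, m, hm, ?_, ?_, ?_⟩
    · rintro rfl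
      exact c0 (by rw [hm, Nat.cast_zero])
    · rintro rfl
      exact c1 (by rw [hm, Nat.cast_one])
    · rintro rfl
      exact c4 (by rw [hm]; norm_num)
  · exact Or.inr (Or.inr (Or.inr h1))

lemma level_density (π : AdjointSystem F) : HasDensity {p : Nat.Primes | ¬ π.Good p} 0 := by
  refine Pool.Agent.OneP74.density_union (Pool.Agent.Crit74.dens_level π.level_pos)
    Set.finite_empty fun p hp => Or.inl ?_
  by_contra hcon
  exact hp ⟨p.2, hcon⟩

lemma trace_of_charpoly {R : Type} [CommRing R] [Nontrivial R] {x : Matrix (Fin 2) (Fin 2) R}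
    {a w : R} (h : x.charpoly = Polynomial.X ^ 2 - Polynomial.C a * Polynomial.X +
      Polynomial.C w) : x.trace = a ∧ x.det = w := by
  rw [Matrix.charpoly_fin_two] at h
  have h0 := congrArg (fun P => Polynomial.coeff P 0) h
  have h1 := congrArg (fun P => Polynomial.coeff P 1) h
  simp [Polynomial.coeff_X, Polynomial.coeff_C] at h0 h1
  exact ⟨h1, h0⟩

/-- If the congruences hold modulo one maximal ideal then they come from a representation in
characteristic zero. -/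
theorem one_prime (h : AdjointSystem.Hyp π σ₁ σ₂) (hC : π.HasCube σ₁) {K : Type} [Field K]
    [NumberField K] (ι : F →+* K) (a w : ℕ → 𝓞 K) (m : ℕ) (l : Ideal (𝓞 K)) [hlm : l.IsMaximal]
    (hl : ((30 * m : ℕ) : 𝓞 K) ∉ l) (Fr : Nat.Primes → GQ) (hF : IsFrobeniusChoice Fr)
    (r : GQ →* GL (Fin 2) (𝓞 K ⧸ l)) (hr : IsOpen (r.ker : Set GQ))
    (hr2 : DensityZero {p : Nat.Primes | ¬ (w p ^ m = 1 ∧ (a p : K) ^ 2 = ι (π.b p) * (w p : K) ∧
      (r (Fr p)).val.charpoly =
        Polynomial.X ^ 2 - Polynomial.C (Ideal.Quotient.mk l (a p)) * Polynomial.X +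
          Polynomial.C (Ideal.Quotient.mk l (w p)))}) (τ : K →+* ℂ) :
    ∃ (E : Type) (_ : Field E) (_ : NumberField E) (i : E →+* ℂ) (R : GQ →* GL (Fin 2) E),
      IsAbsIrreducible R ∧ IsOpen (R.ker : Set GQ) ∧
      DensityZero {p : Nat.Primes | (R (Fr p)).val.charpoly.map i ≠
        Polynomial.X ^ 2 - Polynomial.C (τ (a p : K)) * Polynomial.X +
          Polynomial.C (τ (w p : K))} := by
  classical
  have hF' : Pool.Agent.OneP74.IsFrobeniusFamily Fr := hF
  choose 𝔓 h𝔓 hp𝔓 hFr using hF'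
  obtain ⟨Φ, hΦ⟩ : ∃ Φ : FrobeniusData GQ, Φ.frob = Fr := ⟨frobeniusData 𝔓 h𝔓 hp𝔓 Fr hFr, rfl⟩
  have hm : m ≠ 0 := by
    rintro rfl
    apply hl
    simp
  set Y : Set Nat.Primes := {p : Nat.Primes | ¬ (w p ^ m = 1 ∧
      (a p : K) ^ 2 = ι (π.b p) * (w p : K) ∧ (r (Fr p)).val.charpoly =
        Polynomial.X ^ 2 - Polynomial.C (Ideal.Quotient.mk l (a p)) * Polynomial.X +
          Polynomial.C (Ideal.Quotient.mk l (w p)))} with hY
  set Z : Set Nat.Primes := {p : Nat.Primes | ¬ π.Good p} with hZ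
  set W : Set Nat.Primes := {p : Nat.Primes | π.Oth p} with hW
  set X : Set Nat.Primes := (Y ∪ Z) ∪ W with hX
  have hXd : HasDensity X 0 :=
    density_union' (density_union' hr2 (level_density π) subset_rfl)
      (hasDensity_zero (AdjointSystem.oth_le h hC)) subset_rfl
  set a' : Nat.Primes → 𝓞 K := fun p => if p ∈ X then 0 else a p with ha'
  have hgood : ∀ p ∉ X, (π.Good (p : ℕ) ∧ ¬ π.Oth p) ∧ w p ^ m = 1 ∧
      (a p : K) ^ 2 = ι (π.b p) * (w p : K) ∧ (r (Fr p)).val.charpoly =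
        Polynomial.X ^ 2 - Polynomial.C (Ideal.Quotient.mk l (a p)) * Polynomial.X +
          Polynomial.C (Ideal.Quotient.mk l (w p)) := by
    intro p hp
    rw [hX, Set.mem_union, Set.mem_union, not_or, not_or] at hp
    exact ⟨⟨not_not.1 hp.1.2, hp.2⟩, not_not.1 hp.1.1⟩
  have ha'p : ∀ p ∉ X, a' p = a p := fun p hp => if_neg hp
  have hnt : Nontrivial (𝓞 K ⧸ l) := Ideal.Quotient.nontrivial_iff.2 hlm.ne_top
  have hXr : ∀ p ∉ X, w p ^ m = 1 ∧ Typ (a' p) (w p) ∧
      (r (Φ.frob p)).val.trace = Ideal.Quotient.mk l (a' p) ∧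
      (r (Φ.frob p)).val.det = Ideal.Quotient.mk l (w p) := by
    intro p hp
    obtain ⟨⟨h1, h2⟩, w1, w2, h3⟩ := hgood p hp
    rw [ha'p p hp, hΦ]
    exact ⟨w1, typ_of_b ι (π.integral p h1.1 h1.2) w2 (type_or_oth h h1 h2),
      trace_of_charpoly h3⟩
  have hfour : ∀ᶠ s : ℝ in 𝓝[>] 1, Pool.Agent.GalSide.primeSum
      {p : Nat.Primes | p ∈ X ∨ a' p ^ 2 = 4 * w p} s ≤ 1 / 17 * Real.log (1 / (s - 1)) := by
    have h1 := ev_le (by norm_num) (AdjointSystem.four_le h) (show (1 / 60 : ℝ) < 1 / 50 by norm_num)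
    have h2 : ∀ᶠ s : ℝ in 𝓝[>] 1, Pool.Agent.GalSide.primeSum X s ≤
        1 / 100 * Real.log (1 / (s - 1)) := by
      have h3 := hXd.eventually (gt_mem_nhds (show (0 : ℝ) < 1 / 100 by norm_num))
      filter_upwards [h3, Chb_log.eventually_gt_atTop 0] with s b1 b2
      rw [div_lt_iff₀ b2] at b1
      exact b1.le
    filter_upwards [h1, h2, Chb_gt, Chb_log.eventually_gt_atTop 0] with s b1 b2 b3 b4
    have h4 : Pool.Agent.GalSide.primeSum {p : Nat.Primes | p ∈ X ∨ a' p ^ 2 = 4 * w p} s ≤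
        Pool.Agent.GalSide.primeSum (X ∪ {p : Nat.Primes | π.Four p}) s := by
      refine Chb_mono b3 ?_
      intro p hp
      by_cases hpX : p ∈ X
      · exact Or.inl hpX
      right
      have h5 := hp.resolve_left hpX
      obtain ⟨⟨c1, c2⟩, w1, w2, c3⟩ := hgood p hpX
      refine ⟨c1, ?_⟩
      rw [ha'p p hpX] at h5
      have h6 := congrArg (algebraMap (𝓞 K) K) h5
      rw [map_pow, map_mul, map_ofNat] at h6
      have h7 : ι (π.b p) * (w p : K) = 4 * (w p : K) := w2.symm.trans h6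
      have hw0 : (w p : K) ≠ 0 := by
        intro h0
        have h8 := congrArg (algebraMap (𝓞 K) K) w1
        rw [map_pow, map_one] at h8
        change (w p : K) ^ m = 1 at h8
        rw [h0, zero_pow hm] at h8
        exact zero_ne_one h8
      have h9 := mul_right_cancel₀ hw0 h7
      apply ι.injective
      rw [h9, map_ofNat]
    have h5 := Chb_union b3 X {p : Nat.Primes | π.Four p}
    rw [pS_set] at h5
    linarith
  have h0 : l ≠ ⊥ :=
    Ring.ne_bot_of_isMaximal_of_not_isField hlm (RingOfIntegers.not_isField K)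
  have hlift := exists_lift l Φ a' (fun p : Nat.Primes => w p) hl r hr hXd hXr
    (by norm_num : (1 / 17 : ℝ) < 1 / 16) hfour
  have hmean := mean_le h.hs ι (a' := a') hm (by
    intro p
    by_cases hp : p ∈ X
    · exact Or.inl (if_pos hp)
    right
    obtain ⟨⟨c1, c2⟩, w1, w2, c3⟩ := hgood p hp
    refine ⟨c1, w p, w1, ?_⟩
    rw [ha'p p hp]
    exact w2)
  have hfin := motive_of_lifts a' (fun p : Nat.Primes => w p) τ l h0 Fr hF X hXd (by
    intro j
    obtain ⟨ρ, h1, h2⟩ := hlift j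
    refine ⟨ρ, h1, fun p hp => ?_⟩
    have := h2 p hp
    rw [hΦ] at this
    exact this) (by
    intro p hp σ
    obtain ⟨⟨c1, c2⟩, w1, w2, c3⟩ := hgood p hp
    rw [ha'p p hp]
    obtain ⟨n1, n2⟩ := norms h.hs ι c1 hm w1 w2 σ
    refine ⟨?_, n1⟩
    have n3 := r_le h.hs (σ.comp ι) c1 (type_or_oth h c1 c2)
    rw [← n2] at n3
    nlinarith [norm_nonneg (σ (a p : K))]) hmean
  obtain ⟨E, i1, i2, i, R, R1, R2, R3⟩ := hfin
  refine ⟨E, i1, i2, i, R, R1, R2, ?_⟩
  refine Pool.Agent.Crit74.dens_union R3 hXd fun p hp => ?_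
  by_cases hpX : p ∈ X
  · exact Or.inr hpX
  left
  change (R (Fr p)).val.charpoly.map i ≠ _
  rw [ha'p p hpX]
  exact hp

theorem isArtin_of_mod (h : AdjointSystem.Hyp π σ₁ σ₂) (hC : π.HasCube σ₁) {K : Type} [Field K]
    [NumberField K] (ι : F →+* K) (Frob : Nat.Primes → GQ) (hF : IsFrobeniusChoice Frob)
    (a w : ℕ → 𝓞 K) (hR : HasRepMod π ι Frob a w) (τ : K →+* ℂ) :
    IsArtin Frob (fun p => τ (a p)) (fun p => τ (w p)) := by
  obtain ⟨k, l, hl1, hl, r, hr, hd⟩ := hR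
  refine one_prime h hC ι a w k l hl Frob hF r hr ?_ τ
  refine Pool.Agent.Crit74.dens_mono hd fun p hp hcon => hp ⟨hcon.1.1, hcon.1.2, hcon.2⟩

end Pool.Agent.H70B
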